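import Mathlib

/-!
A polynomial of degree `d` which divides a product divides a product of `d` of the factors.
-/

set_option autoImplicit false

namespace Pool.Agent.TH483

open MvPolynomial

variable {σ : Type*} {K : Type*} [Field K]

theorem one_le_totalDegree {p : MvPolynomial σ K} (hp : ¬ IsUnit p) (hp0 : p ≠ 0) :
    1 ≤ p.totalDegree := by
  by_contra h
  have h0 : p.totalDegree = 0 := by omega
  rw [totalDegree_eq_zero_iff_eq_C] at h0
  rw [h0] at hp hp0
  refine hp ?_
  rw [isUnit_iff_exists_inv]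
  have hc : coeff 0 p ≠ 0 := fun h => hp0 (by rw [h, map_zero])
  exact ⟨C (coeff 0 p)⁻¹, by rw [← map_mul, mul_inv_cancel₀ hc, map_one]⟩

theorem exists_few {J : ℕ} (g : Fin J → MvPolynomial σ K) (f : MvPolynomial σ K)
    (hf0 : f ≠ 0) : f ∣ ∏ j, g j → ∃ l : List (Fin J), l.length ≤ f.totalDegree ∧
      f ∣ (l.map g).prod := by
  induction f using UniqueFactorizationMonoid.induction_on_prime with
  | h₁ => exact absurd rfl hf0
  | h₂ f hu =>
    intro _
    exact ⟨[], Nat.zero_le _, by simpa using hu.dvd⟩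
  | h₃ f p hf hp ih =>
    intro hdvd
    obtain ⟨l, hl, hfl⟩ := ih hf ((dvd_mul_left f p).trans hdvd)
    obtain ⟨j, -, hj⟩ := (hp.dvd_finsetProd_iff g).1 ((dvd_mul_right p f).trans hdvd)
    refine ⟨j :: l, ?_, ?_⟩
    · rw [List.length_cons, totalDegree_mul_of_isDomain hp.ne_zero hf]
      have := one_le_totalDegree hp.not_isUnit hp.ne_zero
      omega
    · rw [List.map_cons, List.prod_cons]
      exact mul_dvd_mul hj hfl

end Pool.Agent.TH483
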