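import Mathlib

/-!
Coefficients of a polynomial with respect to a set of variables, and monomials which span them.
-/

set_option autoImplicit false

namespace Pool.Agent.TH483

open MvPolynomial

variable {σ : Type*} [DecidableEq σ] {K : Type*} [Field K]

/-- the part of a monomial in the variables of `U` -/
noncomputable def inn (U : Finset σ) (x : σ →₀ ℕ) : σ →₀ ℕ := x.filter (· ∈ U)

/-- the part of a monomial in the other variables -/
noncomputable def out (U : Finset σ) (x : σ →₀ ℕ) : σ →₀ ℕ := x.filter (· ∉ U)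

theorem inn_apply (U : Finset σ) (x : σ →₀ ℕ) (u : σ) : inn U x u = if u ∈ U then x u else 0 := by
  unfold inn
  rw [Finsupp.filter_apply]

theorem out_apply (U : Finset σ) (x : σ →₀ ℕ) (u : σ) : out U x u = if u ∈ U then 0 else x u := by
  unfold out
  rw [Finsupp.filter_apply]
  split_ifs <;> simp_all

theorem inn_add_out (U : Finset σ) (x : σ →₀ ℕ) : inn U x + out U x = x := by
  ext u
  rw [Finsupp.add_apply, inn_apply, out_apply]
  split_ifs <;> simp

/-- The coefficient of the monomial `m` in the variables of `U`, which is a polynomial in the other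
variables. -/
noncomputable def cf (U : Finset σ) (m : σ →₀ ℕ) : MvPolynomial σ K →ₗ[K] MvPolynomial σ K :=
  (basisMonomials σ K).constr K fun x => if inn U x = m then monomial (out U x) 1 else 0

theorem cf_monomial (U : Finset σ) (m x : σ →₀ ℕ) (c : K) :
    cf U m (monomial x c) = if inn U x = m then monomial (out U x) c else 0 := by
  have h1 : (monomial x c : MvPolynomial σ K) = c • basisMonomials σ K x := by
    rw [coe_basisMonomials, smul_monomial, smul_eq_mul, mul_one]
  rw [h1, map_smul]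
  unfold cf
  rw [Module.Basis.constr_basis]
  split_ifs with h
  · rw [smul_monomial, smul_eq_mul, mul_one]
  · rw [smul_zero]

theorem inn_add (U : Finset σ) {v w : σ →₀ ℕ} (hv : v.support ⊆ U) (hw : Disjoint w.support U) :
    inn U (v + w) = v := by
  ext u
  rw [inn_apply, Finsupp.add_apply]
  split_ifs with h
  · have : w u = 0 := by
      by_contra h0
      exact Finset.disjoint_left.1 hw (Finsupp.mem_support_iff.2 h0) h
    omega
  · by_contra h0
    exact h (hv (Finsupp.mem_support_iff.2 (Ne.symm h0)))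

theorem out_add (U : Finset σ) {v w : σ →₀ ℕ} (hv : v.support ⊆ U) (hw : Disjoint w.support U) :
    out U (v + w) = w := by
  have h1 := inn_add_out U (v + w)
  rw [inn_add U hv hw] at h1
  exact add_left_cancel h1

theorem cf_mul (U : Finset σ) (m : σ →₀ ℕ) {g h : MvPolynomial σ K}
    (hg : g ∈ supported K (U : Set σ)) (hh : h ∈ supported K ((U : Set σ)ᶜ)) :
    cf U m (g * h) = coeff m g • h := by
  rw [mem_supported] at hg hh
  have e1 : g * h = ∑ v ∈ g.support, ∑ w ∈ h.support, monomial (v + w) (coeff v g * coeff w h) := by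
    conv_lhs => rw [as_sum g, as_sum h]
    rw [Finset.sum_mul_sum]
    simp only [monomial_mul]
  rw [e1, map_sum]
  have e2 : ∀ v ∈ g.support, cf U m (∑ w ∈ h.support, monomial (v + w) (coeff v g * coeff w h)) =
      if v = m then coeff v g • h else 0 := by
    intro v hv
    rw [map_sum]
    have hvU : v.support ⊆ U := by
      intro u hu
      exact hg ((mem_vars_iff_mem_support u).2 ⟨v, hv, hu⟩)
    have e3 : ∀ w ∈ h.support, cf U m (monomial (v + w) (coeff v g * coeff w h)) =
        if v = m then monomial w (coeff v g * coeff w h) else 0 := by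
      intro w hw
      have hwU : Disjoint w.support U := by
        rw [Finset.disjoint_left]
        intro u hu huU
        exact hh ((mem_vars_iff_mem_support u).2 ⟨w, hw, hu⟩) huU
      rw [cf_monomial, inn_add U hvU hwU, out_add U hvU hwU]
    rw [Finset.sum_congr rfl e3]
    split_ifs with hvm
    · conv_rhs => rw [as_sum h]
      rw [Finset.smul_sum]
      refine Finset.sum_congr rfl fun w _ => ?_
      rw [smul_monomial, smul_eq_mul]
    · simp
  rw [Finset.sum_congr rfl e2, Finset.sum_ite_eq']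
  split_ifs with hm
  · rfl
  · rw [notMem_support_iff.1 hm, zero_smul]

theorem cf_cf {U₁ U₂ : Finset σ} (hU : Disjoint U₁ U₂) {m₁ m₂ : σ →₀ ℕ} (h₁ : m₁.support ⊆ U₁)
    (h₂ : m₂.support ⊆ U₂) (f : MvPolynomial σ K) :
    cf U₂ m₂ (cf U₁ m₁ f) = cf (U₁ ∪ U₂) (m₁ + m₂) f := by
  suffices h : (cf (K := K) U₂ m₂).comp (cf U₁ m₁) = cf (U₁ ∪ U₂) (m₁ + m₂) from
    LinearMap.congr_fun h f
  refine (basisMonomials σ K).ext fun x => ?_
  rw [LinearMap.comp_apply, coe_basisMonomials, cf_monomial, cf_monomial]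
  have hz₁ : ∀ u, u ∉ U₁ → m₁ u = 0 := fun u hu => by
    by_contra h0
    exact hu (h₁ (Finsupp.mem_support_iff.2 h0))
  have hz₂ : ∀ u, u ∉ U₂ → m₂ u = 0 := fun u hu => by
    by_contra h0
    exact hu (h₂ (Finsupp.mem_support_iff.2 h0))
  have hd : ∀ u, u ∈ U₁ → u ∉ U₂ := fun u h1 h2 => Finset.disjoint_left.1 hU h1 h2
  by_cases ha : inn U₁ x = m₁
  · rw [if_pos ha, cf_monomial]
    by_cases hb : inn U₂ (out U₁ x) = m₂
    · have ho : out U₂ (out U₁ x) = out (U₁ ∪ U₂) x := by
        ext u
        simp only [out_apply, Finset.mem_union]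
        by_cases h1 : u ∈ U₁ <;> by_cases h2 : u ∈ U₂ <;> simp [h1, h2]
      rw [if_pos hb, if_pos, ho]
      · rw [← ha, ← hb]
        ext u
        simp only [Finsupp.add_apply, inn_apply, out_apply, Finset.mem_union]
        by_cases h1 : u ∈ U₁
        · simp [h1, hd u h1]
        · simp [h1]
    · rw [if_neg hb, if_neg]
      intro hc
      apply hb
      ext u
      have := DFunLike.congr_fun hc u
      simp only [Finsupp.add_apply, inn_apply, out_apply, Finset.mem_union] at this ⊢
      by_cases h2 : u ∈ U₂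
      · have h1 : u ∉ U₁ := fun h1 => hd u h1 h2
        simp only [h2, h1, if_true, or_true, if_false, hz₁ u h1, zero_add] at this ⊢
        exact this
      · simp [h2, hz₂ u h2]
  · rw [if_neg ha, map_zero, if_neg]
    intro hc
    apply ha
    ext u
    have := DFunLike.congr_fun hc u
    simp only [Finsupp.add_apply, inn_apply, Finset.mem_union] at this ⊢
    by_cases h1 : u ∈ U₁
    · simp only [h1, true_or, if_true, hz₂ u (hd u h1), add_zero] at this ⊢
      exact this
    · simp [h1, hz₁ u h1]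

theorem degree_inn_le (U : Finset σ) (x : σ →₀ ℕ) : (inn U x).degree ≤ x.degree := by
  conv_rhs => rw [← inn_add_out U x]
  rw [map_add]
  exact Nat.le_add_right _ _

omit [DecidableEq σ] in
theorem degree_le_of_mem {f : MvPolynomial σ K} {D : ℕ} (hf : f.totalDegree ≤ D) {x : σ →₀ ℕ}
    (hx : x ∈ f.support) : x.degree ≤ D := by
  refine le_trans ?_ hf
  have := le_totalDegree hx
  rw [Finsupp.degree_apply]
  exact this

theorem cf_eq_zero {f : MvPolynomial σ K} {D : ℕ} (hf : f.totalDegree ≤ D) (U : Finset σ)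
    {m : σ →₀ ℕ} (hm : D < m.degree) : cf U m f = 0 := by
  conv_lhs => rw [as_sum f]
  rw [map_sum]
  refine Finset.sum_eq_zero fun x hx => ?_
  rw [cf_monomial, if_neg]
  intro h
  have h1 := degree_le_of_mem hf hx
  have h2 := degree_inn_le U x
  rw [h] at h2
  omega

theorem cf_univ [Fintype σ] (f : MvPolynomial σ K) (m : σ →₀ ℕ) :
    cf Finset.univ m f = C (coeff m f) := by
  conv_lhs => rw [as_sum f]
  rw [map_sum]
  have e : ∀ x ∈ f.support, cf Finset.univ m (monomial x (coeff x f)) =
      if x = m then C (coeff x f) else (0 : MvPolynomial σ K) := by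
    intro x _
    have h1 : inn Finset.univ x = x := by ext u; rw [inn_apply]; simp
    have h2 : out Finset.univ x = 0 := by ext u; rw [out_apply]; simp
    rw [cf_monomial, h1, h2]
    rfl
  rw [Finset.sum_congr rfl e, Finset.sum_ite_eq']
  split_ifs with hm
  · rfl
  · rw [notMem_support_iff.1 hm, map_zero]

/-- the weight of a monomial -/
noncomputable def wt (e : σ → ℕ) : (σ →₀ ℕ) →+ ℕ := Finsupp.weight e

/-- The coefficients with respect to the monomials in `P` span all coefficients of `f` with respect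
to `U`, with only smaller monomials being used. -/
def Cov (f : MvPolynomial σ K) (D : ℕ) (U : Finset σ) (P : Finset (σ →₀ ℕ)) (e : σ → ℕ) : Prop :=
  (∀ z ∈ P, z.support ⊆ U ∧ z.degree ≤ D) ∧ ∀ m : σ →₀ ℕ, m.support ⊆ U →
    cf U m f ∈ Submodule.span K ((fun z => cf U z f) '' {z | z ∈ P ∧ (z = m ∨ wt e z < wt e m)})

/-- the rank of `f` with respect to `U` is at most `W` -/
def Rk (U : Finset σ) (W : ℕ) (f : MvPolynomial σ K) : Prop :=
  ∃ S : Finset (MvPolynomial σ K), S.card ≤ W ∧
    ∀ m, cf U m f ∈ Submodule.span K (S : Set (MvPolynomial σ K))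

theorem Cov.greedy {f : MvPolynomial σ K} {D W : ℕ} {U : Finset σ} {P : Finset (σ →₀ ℕ)}
    {e : σ → ℕ} (hc : Cov f D U P e) (hi : Set.InjOn (wt e) (P : Set (σ →₀ ℕ))) (hr : Rk U W f) :
    ∃ M ⊆ P, M.card ≤ W ∧ Cov f D U M e := by
  classical
  set M := P.filter fun z => cf U z f ∉
    Submodule.span K ((fun z => cf U z f) '' {x | x ∈ P ∧ wt e x < wt e z}) with hM
  have hMP : M ⊆ P := Finset.filter_subset _ _
  have hMn : ∀ z ∈ M, cf U z f ∉
      Submodule.span K ((fun z => cf U z f) '' {x | x ∈ P ∧ wt e x < wt e z}) :=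
    fun z hz => (Finset.mem_filter.1 hz).2
  refine ⟨M, hMP, ?_, fun z hz => hc.1 z (hMP hz), ?_⟩
  · -- independence
    have hli : LinearIndependent K (fun z : M => cf U (z : σ →₀ ℕ) f) := by
      rw [linearIndependent_iff']
      intro s g hs i hi'
      by_contra hne
      -- the largest element with a nonzero coefficient
      obtain ⟨j, hj, hjmax⟩ := Finset.exists_max_image (s.filter fun i => g i ≠ 0)
        (fun i => wt e (i : σ →₀ ℕ)) ⟨i, Finset.mem_filter.2 ⟨hi', hne⟩⟩
      rw [Finset.mem_filter] at hj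
      have h1 : g j • cf U (j : σ →₀ ℕ) f = - ∑ i ∈ s.erase j, g i • cf U (i : σ →₀ ℕ) f := by
        rw [← Finset.add_sum_erase _ _ hj.1] at hs
        exact eq_neg_of_add_eq_zero_left hs
      have h2 : g j • cf U (j : σ →₀ ℕ) f ∈ Submodule.span K
          ((fun z => cf U z f) '' {x | x ∈ P ∧ wt e x < wt e (j : σ →₀ ℕ)}) := by
        rw [h1]
        refine Submodule.neg_mem _ (Submodule.sum_mem _ fun i hii => ?_)
        by_cases hgi : g i = 0
        · rw [hgi, zero_smul]; exact Submodule.zero_mem _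
        · refine Submodule.smul_mem _ _ (Submodule.subset_span ⟨i, ⟨hMP i.2, ?_⟩, rfl⟩)
          have h3 := hjmax i (Finset.mem_filter.2 ⟨Finset.mem_of_mem_erase hii, hgi⟩)
          refine lt_of_le_of_ne h3 fun h4 => ?_
          exact Finset.ne_of_mem_erase hii (Subtype.ext (hi (hMP i.2) (hMP j.2) h4))
      have h3 := Submodule.smul_mem _ (g j)⁻¹ h2
      rw [smul_smul, inv_mul_cancel₀ hj.2, one_smul] at h3
      exact hMn j j.2 h3
    obtain ⟨S, hSc, hS⟩ := hr
    have h1 := linearIndependent_le_span' _ hli (S : Set (MvPolynomial σ K)) (by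
      rintro _ ⟨z, rfl⟩
      exact hS z)
    rw [Cardinal.mk_fintype, Fintype.card_coe] at h1
    have h2 : Fintype.card ((S : Set (MvPolynomial σ K)) : Type _) = S.card := by simp
    rw [h2] at h1
    exact (Nat.cast_le.1 h1).trans hSc
  · -- covering
    have key : ∀ k : ℕ, ∀ z ∈ P, wt e z = k → cf U z f ∈ Submodule.span K
        ((fun z => cf U z f) '' {x | x ∈ M ∧ (x = z ∨ wt e x < wt e z)}) := by
      intro k
      induction k using Nat.strong_induction_on with
      | _ k ih =>
        intro z hz hk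
        by_cases hzM : z ∈ M
        · exact Submodule.subset_span ⟨z, ⟨hzM, Or.inl rfl⟩, rfl⟩
        · have h1 : cf U z f ∈
              Submodule.span K ((fun z => cf U z f) '' {x | x ∈ P ∧ wt e x < wt e z}) := by
            by_contra h
            exact hzM (Finset.mem_filter.2 ⟨hz, h⟩)
          refine Submodule.span_le.2 ?_ h1
          rintro _ ⟨x, ⟨hx, hxz⟩, rfl⟩
          refine Submodule.span_mono ?_ (ih (wt e x) (hk ▸ hxz) x hx rfl)
          refine Set.image_mono ?_
          rintro y ⟨hy, hyx⟩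
          refine ⟨hy, Or.inr ?_⟩
          rcases hyx with rfl | hyx
          · exact hxz
          · exact hyx.trans hxz
    intro m hm
    refine Submodule.span_le.2 ?_ (hc.2 m hm)
    rintro _ ⟨x, ⟨hx, hxm⟩, rfl⟩
    refine Submodule.span_mono ?_ (key _ x hx rfl)
    refine Set.image_mono ?_
    rintro y ⟨hy, hyx⟩
    refine ⟨hy, ?_⟩
    rcases hxm with rfl | hxm
    · exact hyx
    · right
      rcases hyx with rfl | hyx
      · exact hxm
      · exact hyx.trans hxm

/-- the sums of the monomials of two sets, of degree at most `D` -/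
noncomputable def sums (D : ℕ) (M₁ M₂ : Finset (σ →₀ ℕ)) : Finset (σ →₀ ℕ) :=
  ((M₁ ×ˢ M₂).image fun p => p.1 + p.2).filter fun z => z.degree ≤ D

theorem sums_card (D : ℕ) (M₁ M₂ : Finset (σ →₀ ℕ)) : (sums D M₁ M₂).card ≤ M₁.card * M₂.card := by
  unfold sums
  refine (Finset.card_filter_le _ _).trans (Finset.card_image_le.trans ?_)
  rw [Finset.card_product]

theorem Cov.merge {f : MvPolynomial σ K} {D : ℕ} (hf : f.totalDegree ≤ D) {U₁ U₂ : Finset σ}
    {M₁ M₂ : Finset (σ →₀ ℕ)} {e : σ → ℕ} (h₁ : Cov f D U₁ M₁ e) (h₂ : Cov f D U₂ M₂ e)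
    (hU : Disjoint U₁ U₂) : Cov f D (U₁ ∪ U₂) (sums D M₁ M₂) e := by
  classical
  refine ⟨?_, ?_⟩
  · intro z hz
    unfold sums at hz
    rw [Finset.mem_filter, Finset.mem_image] at hz
    obtain ⟨⟨⟨x, y⟩, hxy, rfl⟩, hd⟩ := hz
    rw [Finset.mem_product] at hxy
    refine ⟨?_, hd⟩
    refine (Finsupp.support_add).trans (Finset.union_subset_union ?_ ?_)
    · exact (h₁.1 x hxy.1).1
    · exact (h₂.1 y hxy.2).1
  · intro m hm
    set m₁ := inn U₁ m with hm₁
    set m₂ := out U₁ m with hm₂
    have hs₁ : m₁.support ⊆ U₁ := by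
      intro u hu
      by_contra h
      rw [Finsupp.mem_support_iff, hm₁, inn_apply, if_neg h] at hu
      exact hu rfl
    have hs₂ : m₂.support ⊆ U₂ := by
      intro u hu
      rw [Finsupp.mem_support_iff, hm₂, out_apply] at hu
      split_ifs at hu with h1
      · exact absurd rfl hu
      · have h3 := hm (Finsupp.mem_support_iff.2 hu)
        rw [Finset.mem_union] at h3
        exact h3.resolve_left h1
    have hadd : m₁ + m₂ = m := inn_add_out U₁ m
    set S := Submodule.span K ((fun z => cf (U₁ ∪ U₂) z f) ''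
      {z | z ∈ sums D M₁ M₂ ∧ (z = m ∨ wt e z < wt e m)}) with hS
    -- the coefficient of `x + y`
    have hxy : ∀ x ∈ M₁, ∀ y ∈ M₂, (x = m₁ ∨ wt e x < wt e m₁) → (y = m₂ ∨ wt e y < wt e m₂) →
        cf (U₁ ∪ U₂) (x + y) f ∈ S := by
      intro x hx y hy hx1 hy1
      by_cases hd : (x + y).degree ≤ D
      · refine Submodule.subset_span ⟨x + y, ⟨?_, ?_⟩, rfl⟩
        · unfold sums
          rw [Finset.mem_filter, Finset.mem_image]
          exact ⟨⟨(x, y), Finset.mem_product.2 ⟨hx, hy⟩, rfl⟩, hd⟩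
        · rw [← hadd, map_add, map_add]
          rcases hx1 with rfl | hx1
          · rcases hy1 with rfl | hy1
            · exact Or.inl rfl
            · exact Or.inr (by omega)
          · rcases hy1 with rfl | hy1
            · exact Or.inr (by omega)
            · exact Or.inr (by omega)
      · rw [cf_eq_zero hf _ (not_le.1 hd)]
        exact Submodule.zero_mem _
    have hx : ∀ x ∈ M₁, (x = m₁ ∨ wt e x < wt e m₁) → cf (U₁ ∪ U₂) (x + m₂) f ∈ S := by
      intro x hx hx1
      have hxs := (h₁.1 x hx).1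
      have h3 := h₂.2 m₂ hs₂
      have h4 := Submodule.mem_map_of_mem (f := cf U₁ x) h3
      rw [cf_cf hU.symm hs₂ hxs, Submodule.map_span, ← Set.image_comp] at h4
      rw [Finset.union_comm U₁ U₂, add_comm x m₂]
      refine Submodule.span_le.2 ?_ h4
      rintro _ ⟨y, ⟨hy, hy1⟩, rfl⟩
      have h5 := hxy x hx y hy hx1 hy1
      rw [Finset.union_comm U₁ U₂, add_comm x y] at h5
      simp only [Function.comp_apply, SetLike.mem_coe]
      rw [cf_cf hU.symm (h₂.1 y hy).1 hxs]
      exact h5
    have h3 := h₁.2 m₁ hs₁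
    have h4 := Submodule.mem_map_of_mem (f := cf U₂ m₂) h3
    rw [cf_cf hU hs₁ hs₂, Submodule.map_span, ← Set.image_comp, hadd] at h4
    refine Submodule.span_le.2 ?_ h4
    rintro _ ⟨x, ⟨hxM, hx1⟩, rfl⟩
    simp only [Function.comp_apply, SetLike.mem_coe]
    rw [cf_cf hU (h₁.1 x hxM).1 hs₂]
    exact hx x hxM hx1

omit [DecidableEq σ] in
theorem wt_le {v : σ → ℕ} {b D : ℕ} (hv : ∀ u, v u ≤ b) {z : σ →₀ ℕ} (hz : z.degree ≤ D) :
    wt v z ≤ D * b := by
  unfold wt
  rw [Finsupp.weight_apply, Finsupp.sum]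
  rw [Finsupp.degree_apply] at hz
  calc ∑ u ∈ z.support, z u • v u ≤ ∑ u ∈ z.support, z u * b :=
        Finset.sum_le_sum fun u _ => Nat.mul_le_mul_left _ (hv u)
    _ = (∑ u ∈ z.support, z u) * b := by rw [Finset.sum_mul]
    _ ≤ D * b := Nat.mul_le_mul_right _ hz

omit [DecidableEq σ] in
theorem wt_lin (B : ℕ) (e v : σ → ℕ) (z : σ →₀ ℕ) :
    wt (fun u => B * e u + v u) z = B * wt e z + wt v z := by
  unfold wt
  rw [Finsupp.weight_apply, Finsupp.weight_apply, Finsupp.weight_apply, Finsupp.sum, Finsupp.sum,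
    Finsupp.sum, Finset.mul_sum, ← Finset.sum_add_distrib]
  refine Finset.sum_congr rfl fun u _ => ?_
  simp only [smul_eq_mul]
  ring

theorem Cov.persist {f : MvPolynomial σ K} {D B : ℕ} {U : Finset σ} {P : Finset (σ →₀ ℕ)}
    {e : σ → ℕ} (hc : Cov f D U P e) {v : σ → ℕ} (hv : ∀ z ∈ P, wt v z < B) :
    Cov f D U P (fun u => B * e u + v u) := by
  refine ⟨hc.1, fun m hm => Submodule.span_mono (Set.image_mono ?_) (hc.2 m hm)⟩
  rintro z ⟨hz, h⟩
  refine ⟨hz, ?_⟩
  rcases h with h | h
  · exact Or.inl h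
  · right
    rw [wt_lin, wt_lin]
    have h1 := hv z hz
    have h2 : B * (wt e z + 1) ≤ B * wt e m := Nat.mul_le_mul_left _ h
    rw [mul_add, mul_one] at h2
    omega

end Pool.Agent.TH483
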