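import Mathlib
import Pool.Agent.TH483.Cf

/-!
Isolation of a monomial for polynomials of small rank with respect to the intervals of an unknown
order of the variables.
-/

set_option autoImplicit false

namespace Pool.Agent.TH483

open MvPolynomial

variable {n : ℕ} {K : Type*} [Field K]

/-- powers modulo `p` -/
def pw (p k : ℕ) : Fin n → ℕ := fun u => k ^ (u : ℕ) % p

theorem wt_cast {p : ℕ} (k : ℕ) (z : Fin n →₀ ℕ) :
    ((wt (pw p k) z : ℕ) : ZMod p) = ∑ u : Fin n, (z u : ZMod p) * (k : ZMod p) ^ (u : ℕ) := by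
  unfold wt
  rw [Finsupp.weight_apply, Finsupp.sum_fintype _ _ (by simp)]
  push_cast
  refine Finset.sum_congr rfl fun u _ => ?_
  rw [smul_eq_mul]
  unfold pw
  rw [Nat.cast_mul, ZMod.natCast_mod, Nat.cast_pow]

theorem bad_card {p D : ℕ} (hp : p.Prime) (hD : D < p) {z z' : Fin n →₀ ℕ} (hz : z ≠ z')
    (h : z.degree ≤ D) (h' : z'.degree ≤ D) :
    ((Finset.range p).filter fun k => wt (pw p k) z = wt (pw p k) z').card ≤ n := by
  classical
  have : Fact p.Prime := ⟨hp⟩
  set P : Polynomial (ZMod p) := ∑ u : Fin n,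
    Polynomial.C ((z u : ZMod p) - (z' u : ZMod p)) * Polynomial.X ^ (u : ℕ) with hP
  have hP0 : P ≠ 0 := by
    intro h0
    apply hz
    ext u
    have h1 : P.coeff (u : ℕ) = (z u : ZMod p) - (z' u : ZMod p) := by
      rw [hP, Polynomial.finsetSum_coeff]
      simp only [Polynomial.coeff_C_mul_X_pow]
      rw [Finset.sum_eq_single u]
      · simp
      · intro b _ hb
        rw [if_neg]
        intro h
        exact hb (Fin.ext h.symm)
      · simp
    rw [h0, Polynomial.coeff_zero] at h1
    have h2 : (z u : ZMod p) = (z' u : ZMod p) := (sub_eq_zero.1 h1.symm)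
    rw [ZMod.natCast_eq_natCast_iff'] at h2
    have h3 : z u ≤ D := (Finsupp.le_degree u z).trans h
    have h4 : z' u ≤ D := (Finsupp.le_degree u z').trans h'
    rwa [Nat.mod_eq_of_lt (by omega), Nat.mod_eq_of_lt (by omega)] at h2
  have hdeg : P.natDegree ≤ n := by
    refine Polynomial.natDegree_sum_le_of_forall_le _ _ fun u _ => ?_
    refine (Polynomial.natDegree_C_mul_X_pow_le _ _).trans u.2.le
  refine le_trans ?_ ((Multiset.toFinset_card_le _).trans ((Polynomial.card_roots' P).trans hdeg))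
  refine Finset.card_le_card_of_injOn (fun k : ℕ => (k : ZMod p)) ?_ ?_
  · intro k hk
    rw [Finset.mem_coe, Finset.mem_filter] at hk
    rw [Finset.mem_coe, Multiset.mem_toFinset, Polynomial.mem_roots hP0, Polynomial.IsRoot.def, hP,
      Polynomial.eval_finsetSum]
    simp only [Polynomial.eval_mul, Polynomial.eval_C, Polynomial.eval_pow, Polynomial.eval_X,
      sub_mul]
    rw [Finset.sum_sub_distrib, ← wt_cast, ← wt_cast, hk.2, sub_self]
  · intro a ha b hb hab
    rw [Finset.mem_coe, Finset.mem_filter, Finset.mem_range] at ha hb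
    simp only at hab
    rw [ZMod.natCast_eq_natCast_iff'] at hab
    rwa [Nat.mod_eq_of_lt ha.1, Nat.mod_eq_of_lt hb.1] at hab

theorem exists_sep {p D : ℕ} (hp : p.Prime) (hD : D < p)
    (Q : Finset ((Fin n →₀ ℕ) × (Fin n →₀ ℕ)))
    (hQ : ∀ q ∈ Q, q.1 ≠ q.2 ∧ q.1.degree ≤ D ∧ q.2.degree ≤ D) (hc : Q.card * n < p) :
    ∃ k < p, ∀ q ∈ Q, wt (pw p k) q.1 ≠ wt (pw p k) q.2 := by
  classical
  set bad : (Fin n →₀ ℕ) × (Fin n →₀ ℕ) → Finset ℕ := fun q =>
    (Finset.range p).filter fun k => wt (pw p k) q.1 = wt (pw p k) q.2 with hbad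
  have h1 : (Q.biUnion bad).card < (Finset.range p).card := by
    rw [Finset.card_range]
    refine lt_of_le_of_lt (Finset.card_biUnion_le.trans ?_) hc
    refine (Finset.sum_le_card_nsmul _ _ n fun q hq => ?_).trans (le_of_eq (smul_eq_mul _ _))
    exact bad_card hp hD (hQ q hq).1 (hQ q hq).2.1 (hQ q hq).2.2
  obtain ⟨k, hk, hkb⟩ := Finset.exists_mem_notMem_of_card_lt_card h1
  refine ⟨k, Finset.mem_range.1 hk, fun q hq h => hkb ?_⟩
  rw [Finset.mem_biUnion]
  exact ⟨q, hq, Finset.mem_filter.2 ⟨hk, h⟩⟩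

/-- the combined weight after `r` rounds -/
def ew (p B : ℕ) (κ : ℕ → ℕ) : ℕ → Fin n → ℕ
  | 0 => fun _ => 1
  | r + 1 => fun u => B * ew p B κ r u + pw p (κ r) u

theorem ew_succ (p B : ℕ) (κ : ℕ → ℕ) (r : ℕ) :
    (ew p B κ (r + 1) : Fin n → ℕ) = fun u => B * ew p B κ r u + pw p (κ r) u := rfl

theorem ew_congr {p B : ℕ} {κ κ' : ℕ → ℕ} (r : ℕ) (h : ∀ i < r, κ i = κ' i) :
    (ew p B κ r : Fin n → ℕ) = ew p B κ' r := by
  induction r with
  | zero => rfl
  | succ r ih =>
    rw [ew_succ, ew_succ, ih fun i hi => h i (by omega), h r (by omega)]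

/-- the monomials in one variable -/
theorem cov_base {f : MvPolynomial (Fin n) K} {D : ℕ} (hf : f.totalDegree ≤ D)
    {U : Finset (Fin n)} (hU : U.card ≤ 1) :
    ∃ P : Finset (Fin n →₀ ℕ), Cov f D U P (fun _ => 1) ∧
      Set.InjOn (wt (fun _ : Fin n => 1)) (P : Set (Fin n →₀ ℕ)) := by
  classical
  rcases Finset.eq_empty_or_nonempty U with rfl | ⟨u, hu⟩
  · refine ⟨{0}, ⟨?_, ?_⟩, by simp⟩
    · intro z hz
      rw [Finset.mem_singleton] at hz
      subst hz
      simp
    · intro m hm
      have : m = 0 := by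
        rw [← Finsupp.support_eq_empty]
        exact Finset.subset_empty.1 hm
      subst this
      exact Submodule.subset_span ⟨0, ⟨Finset.mem_singleton_self _, Or.inl rfl⟩, rfl⟩
  · have hU1 : U = {u} := by
      refine Finset.eq_singleton_iff_unique_mem.2 ⟨hu, fun v hv => ?_⟩
      exact Finset.card_le_one.1 hU v hv u hu
    subst hU1
    have hwt : ∀ j : ℕ, wt (fun _ : Fin n => 1) (Finsupp.single u j) = j := by
      intro j
      unfold wt
      rw [Finsupp.weight_single]
      simp
    refine ⟨(Finset.range (D + 1)).image (Finsupp.single u), ⟨?_, ?_⟩, ?_⟩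
    · intro z hz
      rw [Finset.mem_image] at hz
      obtain ⟨j, hj, rfl⟩ := hz
      rw [Finset.mem_range] at hj
      refine ⟨Finsupp.support_single_subset, ?_⟩
      rw [Finsupp.degree_single]
      omega
    · intro m hm
      have hms : m = Finsupp.single u (m u) := by
        ext v
        by_cases hv : v = u
        · subst hv; simp
        · rw [Finsupp.single_eq_of_ne hv]
          by_contra h0
          have := hm (Finsupp.mem_support_iff.2 h0)
          exact hv (Finset.mem_singleton.1 this)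
      by_cases hd : m u ≤ D
      · refine Submodule.subset_span ⟨m, ⟨?_, Or.inl rfl⟩, rfl⟩
        rw [Finset.mem_image]
        exact ⟨m u, Finset.mem_range.2 (by omega), hms.symm⟩
      · rw [cf_eq_zero hf]
        · exact Submodule.zero_mem _
        · rw [hms, Finsupp.degree_single]
          omega
    · intro z hz z' hz' h
      rw [Finset.mem_coe, Finset.mem_image] at hz hz'
      obtain ⟨j, _, rfl⟩ := hz
      obtain ⟨j', _, rfl⟩ := hz'
      rw [hwt, hwt] at h
      rw [h]

theorem rounds {J : ℕ} {f : Fin J → MvPolynomial (Fin n) K} {D W N p B : ℕ}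
    (hf : ∀ i, (f i).totalDegree ≤ D)
    (hp : p.Prime) (hDp : D < p) (hNp : J * (N * W ^ 4) * n < p) (hB : D * p < B) (hW : 1 ≤ W)
    (U : Fin J → ℕ → ℕ → Finset (Fin n)) (h0 : ∀ i j, (U i 0 j).card ≤ 1)
    (hs : ∀ i r j, U i (r + 1) j = U i r (2 * j) ∪ U i r (2 * j + 1))
    (hd : ∀ i r j, Disjoint (U i r (2 * j)) (U i r (2 * j + 1)))
    (hN : ∀ i r j, N ≤ j → U i r j = ∅) (hr : ∀ i r j, Rk (U i r j) W (f i)) (r : ℕ) :
    ∃ κ : ℕ → ℕ, (∀ i, κ i < p) ∧ ∀ i j, ∃ M : Finset (Fin n →₀ ℕ), M.card ≤ W ∧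
      Cov (f i) D (U i r j) M (ew p B κ r) ∧
      Set.InjOn (wt (ew p B κ r)) (M : Set (Fin n →₀ ℕ)) := by
  classical
  induction r with
  | zero =>
    refine ⟨fun _ => 0, fun _ => hp.pos, fun i j => ?_⟩
    obtain ⟨P, hP, hPi⟩ := cov_base (hf i) (h0 i j)
    obtain ⟨M, hMP, hMc, hM⟩ := hP.greedy hPi (hr i 0 j)
    exact ⟨M, hMc, hM, hPi.mono (Finset.coe_subset.2 hMP)⟩
  | succ r ih =>
    obtain ⟨κ, hκ, h⟩ := ih
    choose M hMc hM hMi using h
    set P : Fin J → ℕ → Finset (Fin n →₀ ℕ) := fun i j =>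
      sums D (M i (2 * j)) (M i (2 * j + 1)) with hPdef
    have hP : ∀ i j, Cov (f i) D (U i (r + 1) j) (P i j) (ew p B κ r) := by
      intro i j
      rw [hs]
      exact (hM i (2 * j)).merge (hf i) (hM i (2 * j + 1)) (hd i r j)
    have hPc : ∀ i j, (P i j).card ≤ W ^ 2 := by
      intro i j
      refine (sums_card _ _ _).trans ?_
      rw [pow_two]
      exact Nat.mul_le_mul (hMc _ _) (hMc _ _)
    obtain ⟨k, hk, hsep⟩ := exists_sep hp hDp
      ((Finset.univ : Finset (Fin J)).biUnion fun i =>
        (Finset.range N).biUnion fun j => (P i j).offDiag)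
      (by
        intro q hq
        rw [Finset.mem_biUnion] at hq
        obtain ⟨i, _, hq⟩ := hq
        rw [Finset.mem_biUnion] at hq
        obtain ⟨j, _, hq⟩ := hq
        rw [Finset.mem_offDiag] at hq
        exact ⟨hq.2.2, ((hP i j).1 _ hq.1).2, ((hP i j).1 _ hq.2.1).2⟩)
      (by
        refine lt_of_le_of_lt (Nat.mul_le_mul_right n ?_) hNp
        refine Finset.card_biUnion_le.trans ?_
        refine (Finset.sum_le_card_nsmul _ _ (N * W ^ 4) fun i _ => ?_).trans (by simp)
        refine Finset.card_biUnion_le.trans ?_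
        refine (Finset.sum_le_card_nsmul _ _ (W ^ 4) fun j _ => ?_).trans (by simp)
        rw [Finset.offDiag_card]
        refine (Nat.sub_le _ _).trans ?_
        calc (P i j).card * (P i j).card ≤ W ^ 2 * W ^ 2 := Nat.mul_le_mul (hPc i j) (hPc i j)
          _ = W ^ 4 := by rw [← pow_add])
    set κ' : ℕ → ℕ := Function.update κ r k with hκ'
    have he : (ew p B κ' (r + 1) : Fin n → ℕ) = fun u => B * ew p B κ r u + pw p k u := by
      have h1 : (ew p B κ' r : Fin n → ℕ) = ew p B κ r := by
        refine ew_congr r fun i hi => ?_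
        rw [hκ', Function.update_of_ne (by omega)]
      have h2 : κ' r = k := by rw [hκ', Function.update_self]
      rw [ew_succ, h1, h2]
    have hv : ∀ z : Fin n →₀ ℕ, z.degree ≤ D → wt (pw p k) z < B := by
      intro z hz
      refine lt_of_le_of_lt (wt_le (b := p) (fun u => ?_) hz) hB
      exact (Nat.mod_lt _ hp.pos).le
    refine ⟨κ', ?_, ?_⟩
    · intro i
      rw [hκ']
      by_cases hi : i = r
      · subst hi; rw [Function.update_self]; exact hk
      · rw [Function.update_of_ne hi]; exact hκ i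
    · intro i j
      rw [he]
      by_cases hj : j < N
      · have hc : Cov (f i) D (U i (r + 1) j) (P i j) (fun u => B * ew p B κ r u + pw p k u) :=
          (hP i j).persist fun z hz => hv z ((hP i j).1 z hz).2
        have hinj : Set.InjOn (wt (fun u => B * ew p B κ r u + pw p k u))
            (P i j : Set (Fin n →₀ ℕ)) := by
          intro z hz z' hz' h
          by_contra hne
          rw [Finset.mem_coe] at hz hz'
          rw [wt_lin, wt_lin] at h
          have h1 := hv z ((hP i j).1 z hz).2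
          have h2 := hv z' ((hP i j).1 z' hz').2
          have h3 : wt (pw p k) z = wt (pw p k) z' := by
            have := congrArg (· % B) h
            simp only [Nat.mul_add_mod] at this
            rwa [Nat.mod_eq_of_lt h1, Nat.mod_eq_of_lt h2] at this
          refine hsep (z, z') ?_ h3
          rw [Finset.mem_biUnion]
          refine ⟨i, Finset.mem_univ _, ?_⟩
          rw [Finset.mem_biUnion]
          exact ⟨j, Finset.mem_range.2 hj, Finset.mem_offDiag.2 ⟨hz, hz', hne⟩⟩
        obtain ⟨M', hMP', hMc', hM'⟩ := hc.greedy hinj (hr i (r + 1) j)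
        exact ⟨M', hMc', hM', hinj.mono (Finset.coe_subset.2 hMP')⟩
      · refine ⟨{0}, by simpa using hW, ⟨?_, ?_⟩, by simp⟩
        · intro z hz
          rw [Finset.mem_singleton] at hz
          subst hz
          simp
        · intro m hm
          rw [hN i (r + 1) j (by omega)] at hm
          have : m = 0 := by
            rw [← Finsupp.support_eq_empty]
            exact Finset.subset_empty.1 hm
          subst this
          exact Submodule.subset_span ⟨0, ⟨Finset.mem_singleton_self _, Or.inl rfl⟩, rfl⟩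

theorem isolated {f : MvPolynomial (Fin n) K} (hf0 : f ≠ 0) {D : ℕ} {M : Finset (Fin n →₀ ℕ)}
    {e : Fin n → ℕ} (hM : Cov f D Finset.univ M e)
    (hi : Set.InjOn (wt e) (M : Set (Fin n →₀ ℕ))) :
    ∃ z ∈ f.support, ∀ m ∈ f.support, m ≠ z → wt e z < wt e m := by
  classical
  obtain ⟨z, hz, hmin⟩ := Finset.exists_min_image f.support (wt e)
    (Finset.nonempty_of_ne_empty (by rwa [Ne, support_eq_empty]))
  have key : ∀ m ∈ f.support, wt e m = wt e z → m ∈ M := by
    intro m hm hmz
    by_contra hmM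
    have h1 := hM.2 m (Finset.subset_univ _)
    have h2 : (fun z => cf Finset.univ z f) '' {x | x ∈ M ∧ (x = m ∨ wt e x < wt e m)} ⊆ {0} := by
      rintro _ ⟨x, ⟨hx, hxm⟩, rfl⟩
      rcases hxm with rfl | hxm
      · exact absurd hx hmM
      · rw [Set.mem_singleton_iff]
        simp only
        rw [cf_univ, notMem_support_iff.1, map_zero]
        intro hxs
        have := hmin x hxs
        omega
    have h3 := Submodule.span_mono h2 h1
    rw [Submodule.span_zero_singleton, Submodule.mem_bot, cf_univ, C_eq_zero] at h3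
    exact mem_support_iff.1 hm h3
  refine ⟨z, hz, fun m hm hne => ?_⟩
  refine lt_of_le_of_ne (hmin m hm) fun h => hne ?_
  exact hi (key m hm h.symm) (key z hz rfl) h.symm

end Pool.Agent.TH483
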