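import Mathlib
import Pool.Agent.TH483.Rounds

/-!
The explicit set of points.
-/

set_option autoImplicit false

namespace Pool.Agent.TH483

open MvPolynomial

variable {n : ℕ} {K : Type*} [Field K]

/-- the least prime which is greater than `N` -/
noncomputable def np (N : ℕ) : ℕ := sInf {p | p.Prime ∧ N < p}

theorem np_spec (N : ℕ) : (np N).Prime ∧ N < np N := by
  refine Nat.sInf_mem (s := {p | p.Prime ∧ N < p}) ?_
  obtain ⟨p, hp, hpp⟩ := Nat.exists_infinite_primes (N + 1)
  exact ⟨p, hpp, by omega⟩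

theorem np_le {N : ℕ} (hN : N ≠ 0) : np N ≤ 2 * N := by
  obtain ⟨p, hp, h1, h2⟩ := Nat.exists_prime_lt_and_le_two_mul N hN
  have h3 : p ∈ {p | p.Prime ∧ N < p} := ⟨hp, h1⟩
  exact (Nat.sInf_le h3).trans h2

/-- The point with seeds `κ` and `t`: its coordinate number `u` is the product of `t_0` and of the
powers of `t_(i+1)` with exponent `κ_i ^ u mod p`. -/
def point (n p : ℕ) {h : ℕ} (κ : Fin h → ℕ) (t : Fin (h + 1) → ℕ) : Fin n → ℤ :=
  fun u => (t 0 : ℤ) * ∏ i : Fin h, (t i.succ : ℤ) ^ (κ i ^ (u : ℕ) % p)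

/-- all points with `κ_i < p` and `t_i ≤ T` -/
def points (n p h T : ℕ) : Finset (Fin n → ℤ) :=
  (Finset.univ : Finset ((Fin h → Fin p) × (Fin (h + 1) → Fin (T + 1)))).image fun x =>
    point n p (fun i => (x.1 i : ℕ)) fun i => (x.2 i : ℕ)

theorem points_card (n p h T : ℕ) : (points n p h T).card ≤ p ^ h * (T + 1) ^ (h + 1) := by
  unfold points
  refine Finset.card_image_le.trans ?_
  rw [Finset.card_univ]
  simp

theorem points_bound (n : ℕ) {p : ℕ} (hp : 0 < p) (h : ℕ) {T : ℕ} (hT : 1 ≤ T) (q : Fin n → ℤ)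
    (hq : q ∈ points n p h T) (u : Fin n) : |q u| ≤ ((T ^ (p * h + 1) : ℕ) : ℤ) := by
  unfold points at hq
  rw [Finset.mem_image] at hq
  obtain ⟨x, -, rfl⟩ := hq
  unfold point
  rw [abs_mul, Finset.abs_prod]
  have h1 : ∀ i : Fin (h + 1), |((x.2 i : ℕ) : ℤ)| ≤ (T : ℤ) := by
    intro i
    rw [Nat.abs_cast]
    exact_mod_cast Nat.lt_succ_iff.1 (x.2 i).2
  have hT' : (1 : ℤ) ≤ (T : ℤ) := by exact_mod_cast hT
  calc |((x.2 0 : ℕ) : ℤ)| * ∏ i : Fin h, |((x.2 i.succ : ℕ) : ℤ) ^ ((x.1 i : ℕ) ^ (u : ℕ) % p)|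
      ≤ (T : ℤ) * ∏ i : Fin h, (T : ℤ) ^ p := by
        refine mul_le_mul (h1 0) ?_ (Finset.prod_nonneg fun i _ => abs_nonneg _) (by omega)
        refine Finset.prod_le_prod (fun i _ => abs_nonneg _) fun i _ => ?_
        rw [abs_pow]
        refine (pow_le_pow_left₀ (abs_nonneg _) (h1 i.succ) _).trans ?_
        exact pow_le_pow_right₀ hT' (Nat.mod_lt _ hp).le
    _ = ((T ^ (p * h + 1) : ℕ) : ℤ) := by
        rw [Finset.prod_const, Finset.card_univ, Fintype.card_fin, ← pow_mul]
        push_cast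
        ring

/-- the weights of the single rounds -/
def gw (p : ℕ) (κ : ℕ → ℕ) : ℕ → Fin n → ℕ
  | 0 => fun _ => 1
  | i + 1 => pw p (κ i)

theorem wt_ew_eq {p B : ℕ} {κ : ℕ → ℕ} {m z : Fin n →₀ ℕ} (r : ℕ)
    (h : ∀ i ≤ r, wt (gw p κ i) m = wt (gw p κ i) z) :
    wt (ew p B κ r) m = wt (ew p B κ r) z := by
  induction r with
  | zero => exact h 0 le_rfl
  | succ r ih =>
    rw [ew_succ, wt_lin, wt_lin, ih fun i hi => h i (by omega)]
    have := h (r + 1) le_rfl
    unfold gw at this
    rw [this]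

/-- the substitution -/
noncomputable def sub (p h : ℕ) (κ : ℕ → ℕ) :
    MvPolynomial (Fin n) K →ₐ[K] MvPolynomial (Fin (h + 1)) K :=
  aeval fun u => ∏ i : Fin (h + 1), X i ^ gw p κ i u

/-- the weights of a monomial -/
noncomputable def ex (p h : ℕ) (κ : ℕ → ℕ) (m : Fin n →₀ ℕ) : Fin (h + 1) →₀ ℕ :=
  Finsupp.equivFunOnFinite.symm fun i => wt (gw p κ i) m

theorem sub_monomial (p h : ℕ) (κ : ℕ → ℕ) (m : Fin n →₀ ℕ) (c : K) :
    sub p h κ (monomial m c) = monomial (ex p h κ m) c := by
  unfold sub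
  rw [aeval_monomial, Finsupp.prod_fintype _ _ (by simp), monomial_eq, Finsupp.prod_fintype _ _
    (by simp)]
  congr 1
  simp only [← Finset.prod_pow, ← pow_mul]
  rw [Finset.prod_comm]
  refine Finset.prod_congr rfl fun i _ => ?_
  rw [Finset.prod_pow_eq_pow_sum]
  congr 1
  unfold ex wt
  rw [Finsupp.equivFunOnFinite_symm_apply_apply, Finsupp.weight_apply,
    Finsupp.sum_fintype _ _ (by simp)]
  refine Finset.sum_congr rfl fun u _ => ?_
  rw [smul_eq_mul, mul_comm]

theorem sub_ne_zero {p B : ℕ} {κ : ℕ → ℕ} (h : ℕ) {f : MvPolynomial (Fin n) K}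
    {z : Fin n →₀ ℕ} (hz : z ∈ f.support)
    (hu : ∀ m ∈ f.support, m ≠ z → wt (ew p B κ h) z < wt (ew p B κ h) m) :
    sub p h κ f ≠ 0 := by
  classical
  intro h0
  have h1 : coeff (ex p h κ z) (sub p h κ f) = coeff z f := by
    conv_lhs => rw [as_sum f]
    rw [map_sum, coeff_sum]
    rw [Finset.sum_eq_single z]
    · rw [sub_monomial, coeff_monomial, if_pos rfl]
    · intro m hm hne
      rw [sub_monomial, coeff_monomial, if_neg]
      intro he
      have h2 := hu m hm hne
      have h3 : wt (ew p B κ h) m = wt (ew p B κ h) z := by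
        refine wt_ew_eq h fun i hi => ?_
        have := DFunLike.congr_fun he ⟨i, Nat.lt_succ_of_le hi⟩
        exact this
      omega
    · exact fun h => absurd hz h
  rw [h0, coeff_zero] at h1
  exact mem_support_iff.1 hz h1.symm

theorem gw_le {p : ℕ} (hp : 0 < p) (κ : ℕ → ℕ) (i : ℕ) (u : Fin n) : gw p κ i u ≤ p := by
  cases i with
  | zero => exact hp
  | succ i => exact (Nat.mod_lt _ hp).le

theorem sub_degreeOf {p : ℕ} (hp : 0 < p) (κ : ℕ → ℕ) (h : ℕ) {D : ℕ}
    {f : MvPolynomial (Fin n) K} (hf : f.totalDegree ≤ D) (i : Fin (h + 1)) :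
    (sub p h κ f).degreeOf i ≤ D * p := by
  classical
  rw [degreeOf_le_iff]
  intro m hm
  have h1 : ∃ x ∈ f.support, ex p h κ x = m := by
    by_contra hcon
    push Not at hcon
    apply mem_support_iff.1 hm
    conv_lhs => rw [as_sum f]
    rw [map_sum, coeff_sum]
    refine Finset.sum_eq_zero fun x hx => ?_
    rw [sub_monomial, coeff_monomial, if_neg (hcon x hx)]
  obtain ⟨x, hx, rfl⟩ := h1
  unfold ex
  rw [Finsupp.equivFunOnFinite_symm_apply_apply]
  exact wt_le (gw_le hp κ i) (degree_le_of_mem hf hx)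

theorem exists_point [CharZero K] {p : ℕ} (hp : 0 < p) {κ : ℕ → ℕ} (hκ : ∀ i, κ i < p) (h : ℕ)
    {d : ℕ} {f : MvPolynomial (Fin n) K} (hf : f.totalDegree ≤ d) (h0 : sub p h κ f ≠ 0) :
    ∃ q ∈ points n p h (d * p), eval (fun u => (q u : K)) f ≠ 0 := by
  classical
  by_contra hcon
  push Not at hcon
  apply h0
  apply eq_zero_of_eval_zero_at_prod_finset _
    (fun _ : Fin (h + 1) => (Finset.range (d * p + 1)).image fun k : ℕ => (k : K))
  · intro i
    rw [Finset.card_image_of_injective _ Nat.cast_injective, Finset.card_range]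
    exact Nat.lt_succ_of_le (sub_degreeOf hp κ h hf i)
  · intro x hx
    have h1 : ∀ i, ∃ k ∈ Finset.range (d * p + 1), ((k : ℕ) : K) = x i := by
      intro i
      have := hx i
      rwa [Finset.mem_image] at this
    choose t ht1 ht2 using h1
    have hq : point n p (fun i : Fin h => κ i) t ∈ points n p h (d * p) := by
      unfold points
      rw [Finset.mem_image]
      exact ⟨(fun i => ⟨κ i, hκ i⟩, fun i => ⟨t i, Finset.mem_range.1 (ht1 i)⟩),
        Finset.mem_univ _, rfl⟩
    have h2 := hcon _ hq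
    rw [← h2]
    unfold sub
    rw [← AlgHom.coe_toRingHom, ← RingHom.comp_apply]
    have h3 : (eval x).comp (aeval (R := K) fun u : Fin n =>
        (∏ i : Fin (h + 1), X i ^ gw p κ i u : MvPolynomial (Fin (h + 1)) K)).toRingHom =
        eval (fun u => ((point n p (fun i : Fin h => κ i) t u : ℤ) : K)) := by
      refine ringHom_ext (fun r => ?_) fun u => ?_
      · simp
      · simp only [RingHom.comp_apply, AlgHom.toRingHom_eq_coe, RingHom.coe_coe, aeval_X, eval_X,
          map_prod, map_pow]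
        unfold point
        rw [Fin.prod_univ_succ]
        push_cast
        rw [ht2 0]
        congr 1
        · unfold gw
          simp
        · refine Finset.prod_congr rfl fun i _ => ?_
          rw [ht2 i.succ]
          rfl
    rw [AlgHom.toRingHom_eq_coe] at h3
    rw [h3]

/-- the prime for degree `D`, rank `W` and `J` factors -/
noncomputable def pr (n D W J : ℕ) : ℕ := np (D + J * (n ^ 2 * W ^ 4) + 1)

/-- the explicit set of points for polynomials of degree `d` which divide a product of `J` factors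
of degree at most `D` and rank at most `W`, with `h` rounds -/
noncomputable def hit (n D W J h d : ℕ) : Finset (Fin n → ℤ) :=
  points n (pr n D W J) h (d * pr n D W J)

theorem pr_le (n D W J : ℕ) : pr n D W J ≤ 2 * (D + J * (n ^ 2 * W ^ 4) + 1) := np_le (by omega)

theorem pr_pos (n D W J : ℕ) : 0 < pr n D W J := (np_spec _).1.pos

theorem hit_card (n D W J h d : ℕ) :
    (hit n D W J h d).card ≤
      (2 * (d + 1) * (D + J * (n ^ 2 * W ^ 4) + 1)) ^ (2 * h + 1) := by
  have h1 := pr_le n D W J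
  refine (points_card _ _ _ _).trans ?_
  set Z := D + J * (n ^ 2 * W ^ 4) + 1 with hZ
  set Y := 2 * (d + 1) * Z with hY
  have h2 : pr n D W J ≤ Y := by
    refine h1.trans ?_
    rw [hY]
    exact Nat.mul_le_mul_right _ (by omega)
  have h3 : d * pr n D W J + 1 ≤ Y := by
    have h4 : d * pr n D W J ≤ d * (2 * Z) := Nat.mul_le_mul_left _ h1
    have h5 : Y = d * (2 * Z) + 2 * Z := by rw [hY]; ring
    omega
  calc pr n D W J ^ h * (d * pr n D W J + 1) ^ (h + 1) ≤ Y ^ h * Y ^ (h + 1) := by gcongr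
    _ = Y ^ (2 * h + 1) := by rw [← pow_add]; congr 1; ring

/-- the polynomial has rank at most `W` with respect to all intervals of an order of the
variables -/
def OrdRk (W : ℕ) (f : MvPolynomial (Fin n) K) : Prop :=
  ∃ ρ : Fin n → ℕ, Function.Injective ρ ∧ (∀ u, ρ u < n) ∧
    ∀ a b : ℕ, Rk (Finset.univ.filter fun u => a ≤ ρ u ∧ ρ u < b) W f

/-- Every polynomial, which divides a product of `J` nonzero polynomials of small rank with respect
to all intervals of some orders of the variables, is nonzero at a point of the explicit set. -/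
theorem exists_hit [CharZero K] {J : ℕ} {f : Fin J → MvPolynomial (Fin n) K}
    (hf0 : ∀ i, f i ≠ 0) {D W h : ℕ} (hf : ∀ i, (f i).totalDegree ≤ D) (hW : 1 ≤ W)
    (hn : n ≤ 2 ^ h) (hr : ∀ i, OrdRk W (f i)) {g : MvPolynomial (Fin n) K}
    (hg : g ∣ ∏ i, f i) {d : ℕ} (hd : g.totalDegree ≤ d) :
    ∃ q ∈ hit n D W J h d, eval (fun u => (q u : K)) g ≠ 0 := by
  classical
  obtain ⟨hp, hN⟩ := np_spec (D + J * (n ^ 2 * W ^ 4) + 1)
  change (pr n D W J).Prime at hp
  change D + J * (n ^ 2 * W ^ 4) + 1 < pr n D W J at hN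
  set p := pr n D W J with hpdef
  choose ρ hρ hρn hrk using hr
  set U : Fin J → ℕ → ℕ → Finset (Fin n) := fun i r j =>
    Finset.univ.filter fun u => ρ i u / 2 ^ r = j with hU
  have hUmem : ∀ i r j u, u ∈ U i r j ↔ ρ i u / 2 ^ r = j := by
    intro i r j u
    rw [hU]
    simp
  obtain ⟨κ, hκ, hM⟩ := rounds (B := D * p + 1) (N := n) (W := W) hf hp (by omega)
    (by
      have : J * (n * W ^ 4) * n = J * (n ^ 2 * W ^ 4) := by ring
      omega) (Nat.lt_succ_self _) hW U
    (by
      intro i j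
      rw [Finset.card_le_one]
      intro u hu v hv
      rw [hUmem] at hu hv
      apply hρ i
      simpa using hu.trans hv.symm)
    (by
      intro i r j
      ext u
      rw [Finset.mem_union, hUmem, hUmem, hUmem, pow_succ, ← Nat.div_div_eq_div_mul]
      omega)
    (by
      intro i r j
      rw [Finset.disjoint_left]
      intro u h1 h2
      rw [hUmem] at h1 h2
      omega)
    (by
      intro i r j hj
      rw [Finset.eq_empty_iff_forall_notMem]
      intro u hu
      rw [hUmem] at hu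
      have h1 := Nat.div_le_self (ρ i u) (2 ^ r)
      have h2 := hρn i u
      omega)
    (by
      intro i r j
      have h1 : U i r j =
          Finset.univ.filter fun u => j * 2 ^ r ≤ ρ i u ∧ ρ i u < (j + 1) * 2 ^ r := by
        ext u
        rw [hUmem, Finset.mem_filter, Nat.div_eq_iff (by positivity)]
        have : 0 < 2 ^ r := by positivity
        simp only [Finset.mem_univ, true_and, add_mul, one_mul]
        omega
      rw [h1]
      exact hrk i _ _) h
  have hsub : ∀ i, sub p h κ (f i) ≠ 0 := by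
    intro i
    obtain ⟨M, -, hMc, hMi⟩ := hM i 0
    have hU0 : U i h 0 = Finset.univ := by
      ext u
      rw [hUmem]
      simp only [Finset.mem_univ, iff_true]
      exact Nat.div_eq_of_lt (lt_of_lt_of_le (hρn i u) hn)
    rw [hU0] at hMc
    obtain ⟨z, hz, hzm⟩ := isolated (hf0 i) hMc hMi
    exact sub_ne_zero h hz hzm
  refine exists_point hp.pos hκ h hd fun h0 => ?_
  obtain ⟨c, hc⟩ := hg
  have h1 : sub p h κ (∏ i, f i) = 0 := by rw [hc, map_mul, h0, zero_mul]
  rw [map_prod] at h1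
  obtain ⟨i, -, hi⟩ := Finset.prod_eq_zero_iff.1 h1
  exact hsub i hi

end Pool.Agent.TH483
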