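import Mathlib
import Pool.Agent.TH483.Points

/-!
Sums of products of polynomials in two sets of variables, which may overlap.
-/

set_option autoImplicit false

namespace Pool.Agent.TH483

open MvPolynomial

variable {σ : Type*} [DecidableEq σ] {K : Type*} [Field K]

/-- `f` is a sum of at most `W` products of a polynomial in the variables of `A` and of a polynomial
in the variables of `B`, of degree at most `D` -/
def Sp (A B : Set σ) (W D : ℕ) (f : MvPolynomial σ K) : Prop :=
  ∃ L : List (MvPolynomial σ K × MvPolynomial σ K), L.length ≤ W ∧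
    (∀ p ∈ L, (p.1 ∈ supported K A ∧ p.1.totalDegree ≤ D) ∧
      p.2 ∈ supported K B ∧ p.2.totalDegree ≤ D) ∧ f = (L.map fun p => p.1 * p.2).sum

omit [DecidableEq σ] in
theorem Sp.add {A B : Set σ} {W₁ W₂ D : ℕ} {f₁ f₂ : MvPolynomial σ K} (h₁ : Sp A B W₁ D f₁)
    (h₂ : Sp A B W₂ D f₂) : Sp A B (W₁ + W₂) D (f₁ + f₂) := by
  obtain ⟨L₁, hl₁, hL₁, rfl⟩ := h₁
  obtain ⟨L₂, hl₂, hL₂, rfl⟩ := h₂
  refine ⟨L₁ ++ L₂, by rw [List.length_append]; omega, fun p hp => ?_, by
    rw [List.map_append, List.sum_append]⟩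
  rcases List.mem_append.1 hp with hp | hp
  · exact hL₁ p hp
  · exact hL₂ p hp

omit [DecidableEq σ] in
theorem Sp.mono {A A' B B' : Set σ} {W W' D D' : ℕ} {f : MvPolynomial σ K} (h : Sp A B W D f)
    (hA : A ⊆ A') (hB : B ⊆ B') (hW : W ≤ W') (hD : D ≤ D') : Sp A' B' W' D' f := by
  obtain ⟨L, hl, hL, rfl⟩ := h
  exact ⟨L, hl.trans hW, fun p hp => ⟨⟨supported_mono hA (hL p hp).1.1, (hL p hp).1.2.trans hD⟩,
    supported_mono hB (hL p hp).2.1, (hL p hp).2.2.trans hD⟩, rfl⟩

omit [DecidableEq σ] in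
theorem Sp.zero (A B : Set σ) (W D : ℕ) : Sp A B W D (0 : MvPolynomial σ K) :=
  ⟨[], Nat.zero_le _, by simp, by simp⟩

omit [DecidableEq σ] in
theorem monomial_mem {A : Set σ} {s : σ →₀ ℕ} (hs : ∀ u ∈ s.support, u ∈ A) (c : K) :
    monomial s c ∈ supported K A := by
  classical
  by_cases hc : c = 0
  · subst hc
    rw [map_zero]
    exact Subalgebra.zero_mem _
  · rw [mem_supported, vars_monomial hc]
    exact fun u hu => hs u (Finset.mem_coe.1 hu)

theorem cf_mem {A : Set σ} {X : Finset σ} {m : σ →₀ ℕ} {g : MvPolynomial σ K}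
    (hg : g ∈ supported K A) : cf X m g ∈ supported K (A \ (X : Set σ)) := by
  rw [mem_supported] at hg
  conv in cf X m g => rw [as_sum g]
  rw [map_sum]
  refine Subalgebra.sum_mem _ fun x hx => ?_
  rw [cf_monomial]
  split_ifs with h
  · refine monomial_mem (fun u hu => ?_) _
    rw [Finsupp.mem_support_iff, out_apply] at hu
    split_ifs at hu with h1
    · exact absurd rfl hu
    · exact ⟨hg ((mem_vars_iff_mem_support u).2 ⟨x, hx, Finsupp.mem_support_iff.2 hu⟩), h1⟩
  · exact Subalgebra.zero_mem _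

/-- the monomials in the variables of `X` with exponents at most `D` -/
noncomputable def box (X : Finset σ) (D : ℕ) : Finset (σ →₀ ℕ) :=
  X.finsupp fun _ => Finset.range (D + 1)

omit [DecidableEq σ] in
theorem box_card (X : Finset σ) (D : ℕ) : (box X D).card = (D + 1) ^ X.card := by
  unfold box
  rw [Finset.card_finsupp]
  simp

omit [DecidableEq σ] in
theorem mem_box {X : Finset σ} {D : ℕ} {m : σ →₀ ℕ} :
    m ∈ box X D ↔ m.support ⊆ X ∧ ∀ u ∈ X, m u ≤ D := by
  unfold box
  rw [Finset.mem_finsupp_iff]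
  simp only [Finset.mem_range, Nat.lt_succ_iff]

theorem expand (X : Finset σ) {D : ℕ} {g : MvPolynomial σ K} (hg : g.totalDegree ≤ D) :
    g = ∑ m ∈ box X D, monomial m 1 * cf X m g := by
  have h1 : ∀ m : σ →₀ ℕ, cf X m g = ∑ x ∈ g.support, cf X m (monomial x (coeff x g)) := by
    intro m
    conv_lhs => rw [as_sum g]
    rw [map_sum]
  conv_lhs => rw [as_sum g]
  simp only [h1, Finset.mul_sum]
  rw [Finset.sum_comm]
  refine Finset.sum_congr rfl fun x hx => ?_
  rw [Finset.sum_eq_single (inn X x)]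
  · rw [cf_monomial, if_pos rfl, monomial_mul, inn_add_out, one_mul]
  · intro m _ hm
    rw [cf_monomial, if_neg (Ne.symm hm), mul_zero]
  · intro h
    exfalso
    apply h
    rw [mem_box]
    refine ⟨fun u hu => ?_, fun u hu => ?_⟩
    · by_contra hc
      rw [Finsupp.mem_support_iff, inn_apply, if_neg hc] at hu
      exact hu rfl
    · rw [inn_apply, if_pos hu]
      exact (Finsupp.le_degree u x).trans (degree_le_of_mem hg hx)

theorem Sp.rk {A B : Set σ} {W D : ℕ} {f : MvPolynomial σ K} (h : Sp A B W D f)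
    {U X₁ X₂ : Finset σ} (h₁ : ∀ x ∈ A, x ∉ U → x ∈ X₁) (h₂ : ∀ x ∈ B, x ∈ U → x ∈ X₂)
    (hX₁ : Disjoint X₁ U) (hX₂ : X₂ ⊆ U) : Rk U (W * (D + 1) ^ (X₁.card + X₂.card)) f := by
  classical
  obtain ⟨L, hl, hL, rfl⟩ := h
  refine ⟨L.toFinset.biUnion fun p => (box X₁ D ×ˢ box X₂ D).image fun ab =>
    monomial ab.1 1 * cf X₂ ab.2 p.2, ?_, ?_⟩
  · refine Finset.card_biUnion_le.trans ?_
    refine (Finset.sum_le_card_nsmul _ _ ((D + 1) ^ (X₁.card + X₂.card)) fun p _ => ?_).trans ?_
    · refine Finset.card_image_le.trans ?_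
      rw [Finset.card_product, box_card, box_card, pow_add]
    · rw [smul_eq_mul]
      exact Nat.mul_le_mul_right _ ((List.toFinset_card_le _).trans hl)
  · intro m
    rw [map_list_sum, List.map_map]
    refine list_sum_mem fun y hy => ?_
    rw [List.mem_map] at hy
    obtain ⟨p, hp, rfl⟩ := hy
    simp only [Function.comp_apply]
    obtain ⟨⟨hp1, hp2⟩, hp3, hp4⟩ := hL p hp
    have e1 : p.1 * p.2 = ∑ a ∈ box X₁ D, ∑ b ∈ box X₂ D,
        (monomial b 1 * cf X₁ a p.1) * (monomial a 1 * cf X₂ b p.2) := by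
      conv_lhs => rw [expand X₁ hp2, expand X₂ hp4]
      rw [Finset.sum_mul_sum]
      refine Finset.sum_congr rfl fun a _ => Finset.sum_congr rfl fun b _ => ?_
      ring
    rw [e1, map_sum]
    refine Submodule.sum_mem _ fun a ha => ?_
    rw [map_sum]
    refine Submodule.sum_mem _ fun b hb => ?_
    have hc1 : monomial b 1 * cf X₁ a p.1 ∈ supported K (U : Set σ) := by
      refine Subalgebra.mul_mem _ (monomial_mem (fun u hu => ?_) _)
        (supported_mono ?_ (cf_mem hp1))
      · exact hX₂ ((mem_box.1 hb).1 hu)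
      · rintro x ⟨hxA, hxX⟩
        by_contra hxU
        exact hxX (h₁ x hxA hxU)
    have hc2 : monomial a 1 * cf X₂ b p.2 ∈ supported K ((U : Set σ)ᶜ) := by
      refine Subalgebra.mul_mem _ (monomial_mem (fun u hu => ?_) _)
        (supported_mono ?_ (cf_mem hp3))
      · exact Finset.disjoint_left.1 hX₁ ((mem_box.1 ha).1 hu)
      · rintro x ⟨hxB, hxX⟩ hxU
        exact hxX (h₂ x hxB hxU)
    rw [cf_mul U m hc1 hc2]
    refine Submodule.smul_mem _ _ (Submodule.subset_span ?_)
    rw [Finset.mem_coe, Finset.mem_biUnion]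
    refine ⟨p, List.mem_toFinset.2 hp, ?_⟩
    rw [Finset.mem_image]
    exact ⟨(a, b), Finset.mem_product.2 ⟨ha, hb⟩, rfl⟩

end Pool.Agent.TH483
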