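import Mathlib
import Pool.Agent.TH483.Split

/-!
The determinant splits along a cut of the nonzero entries which few rows and columns cross.
-/

set_option autoImplicit false
set_option linter.unusedSectionVars false

namespace Pool.Agent.TH483

open MvPolynomial Finset

variable {σ : Type*} [DecidableEq σ] {K : Type*} [Field K] {ι : Type*} [Fintype ι] [DecidableEq ι]

/-- the rows with nonzero entries on both sides -/
noncomputable def mixR (M : Matrix ι ι (MvPolynomial σ K)) (E : ι → ι → Prop) : Finset ι := by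
  classical
  exact univ.filter fun i => (∃ j, M i j ≠ 0 ∧ E i j) ∧ ∃ j, M i j ≠ 0 ∧ ¬ E i j

/-- the columns with nonzero entries on both sides -/
noncomputable def mixC (M : Matrix ι ι (MvPolynomial σ K)) (E : ι → ι → Prop) : Finset ι := by
  classical
  exact univ.filter fun j => (∃ i, M i j ≠ 0 ∧ E i j) ∧ ∃ i, M i j ≠ 0 ∧ ¬ E i j

theorem mem_mixR {M : Matrix ι ι (MvPolynomial σ K)} {E : ι → ι → Prop} {i : ι} :
    i ∈ mixR M E ↔ (∃ j, M i j ≠ 0 ∧ E i j) ∧ ∃ j, M i j ≠ 0 ∧ ¬ E i j := by
  unfold mixR
  simp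

theorem mem_mixC {M : Matrix ι ι (MvPolynomial σ K)} {E : ι → ι → Prop} {j : ι} :
    j ∈ mixC M E ↔ (∃ i, M i j ≠ 0 ∧ E i j) ∧ ∃ i, M i j ≠ 0 ∧ ¬ E i j := by
  unfold mixC
  simp

theorem det_mem {A : Set σ} {D : ℕ} {κ : Type*} [Fintype κ] [DecidableEq κ]
    (M : Matrix κ κ (MvPolynomial σ K)) (h : ∀ i j, M i j ∈ supported K A)
    (hd : ∀ i j, (M i j).totalDegree ≤ D) :
    M.det ∈ supported K A ∧ M.det.totalDegree ≤ Fintype.card κ * D := by
  rw [Matrix.det_apply]
  constructor
  · refine Subalgebra.sum_mem _ fun π _ => ?_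
    refine Subalgebra.zsmul_mem _ (Subalgebra.prod_mem _ fun i _ => h _ _) _
  · refine totalDegree_finsetSum_le fun π _ => ?_
    refine (totalDegree_smul_le _ _).trans ((totalDegree_finsetProd _ _).trans ?_)
    refine (Finset.sum_le_sum fun i _ => hd _ _).trans ?_
    simp

theorem det_pure {A B : Set σ} {D : ℕ} {M : Matrix ι ι (MvPolynomial σ K)} {E : ι → ι → Prop}
    (hR : mixR M E = ∅) (hC : mixC M E = ∅)
    (hA : ∀ i j, M i j ≠ 0 → E i j → M i j ∈ supported K A)
    (hB : ∀ i j, M i j ≠ 0 → ¬ E i j → M i j ∈ supported K B)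
    (hd : ∀ i j, (M i j).totalDegree ≤ D) : Sp A B 1 (Fintype.card ι * D) M.det := by
  classical
  by_cases h0 : M.det = 0
  · rw [h0]
    exact Sp.zero _ _ _ _
  -- a permutation with nonzero entries
  have h1 : ∃ π : Equiv.Perm ι, ∀ i, M i (π i) ≠ 0 := by
    by_contra hcon
    push Not at hcon
    apply h0
    rw [← Matrix.det_transpose, Matrix.det_apply]
    refine Finset.sum_eq_zero fun π _ => ?_
    obtain ⟨i, hi⟩ := hcon π
    rw [Finset.prod_eq_zero (Finset.mem_univ i) (by rw [Matrix.transpose_apply]; exact hi),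
      smul_zero]
  obtain ⟨π, hπ⟩ := h1
  have hrow : ∀ i j j', M i j ≠ 0 → M i j' ≠ 0 → E i j → E i j' := by
    intro i j j' hj hj' hE
    by_contra hE'
    have : i ∈ mixR M E := mem_mixR.2 ⟨⟨j, hj, hE⟩, j', hj', hE'⟩
    rw [hR] at this
    exact absurd this (Finset.notMem_empty _)
  have hcol : ∀ i i' j, M i j ≠ 0 → M i' j ≠ 0 → E i j → E i' j := by
    intro i i' j hj hj' hE
    by_contra hE'
    have : j ∈ mixC M E := mem_mixC.2 ⟨⟨i, hj, hE⟩, i', hj', hE'⟩
    rw [hC] at this
    exact absurd this (Finset.notMem_empty _)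
  set p : ι → Prop := fun i => E i (π i) with hp
  set M' : Matrix ι ι (MvPolynomial σ K) := M.submatrix id π with hM'
  have hblock : ∀ i, p i → ∀ j, ¬ p j → M' i j = 0 := by
    intro i hi j hj
    by_contra hne
    have hne' : M i (π j) ≠ 0 := hne
    have h2 : E i (π j) := hrow i (π i) (π j) (hπ i) hne' hi
    exact hj (hcol i j (π j) hne' (hπ j) h2)
  have hdet := Matrix.twoBlockTriangular_det' M' p hblock
  have hdet2 : M'.det = (Equiv.Perm.sign π : ℤ) • M.det := by
    rw [hM', Matrix.det_permute']
    simp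
  have hsq : ((Equiv.Perm.sign π : ℤˣ) : ℤ) * ((Equiv.Perm.sign π : ℤˣ) : ℤ) = 1 := by
    rw [← Units.val_mul, ← sq, Int.units_sq, Units.val_one]
  have hdet3 : M.det = ((Equiv.Perm.sign π : ℤˣ) : ℤ) • M'.det := by
    rw [hdet2, smul_smul, hsq, one_smul]
  have hcard : ∀ q : ι → Prop, [DecidablePred q] → Fintype.card {i // q i} * D ≤
      Fintype.card ι * D := fun q _ => Nat.mul_le_mul_right _ (Fintype.card_subtype_le _)
  have hb1 := det_mem (A := A) (D := D) (M'.toSquareBlockProp p) (by
      rintro ⟨i, hi⟩ ⟨j, hj⟩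
      by_cases hne : M i (π j) = 0
      · have : M'.toSquareBlockProp p ⟨i, hi⟩ ⟨j, hj⟩ = 0 := hne
        rw [this]
        exact Subalgebra.zero_mem _
      · exact hA i (π j) hne (hrow i (π i) (π j) (hπ i) hne hi)) (fun i j => hd _ _)
  have hb2 := det_mem (A := B) (D := D) (M'.toSquareBlockProp fun i => ¬ p i) (by
      rintro ⟨i, hi⟩ ⟨j, hj⟩
      by_cases hne : M i (π j) = 0
      · have : (M'.toSquareBlockProp fun i => ¬ p i) ⟨i, hi⟩ ⟨j, hj⟩ = 0 := hne
        rw [this]
        exact Subalgebra.zero_mem _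
      · exact hB i (π j) hne fun h => hi (hrow i (π j) (π i) hne (hπ i) h)) (fun i j => hd _ _)
  refine ⟨[(((Equiv.Perm.sign π : ℤˣ) : ℤ) • (M'.toSquareBlockProp p).det,
    (M'.toSquareBlockProp fun i => ¬ p i).det)], le_rfl, ?_, ?_⟩
  · intro q hq
    rw [List.mem_singleton] at hq
    subst hq
    exact ⟨⟨Subalgebra.zsmul_mem _ hb1.1 _,
      (totalDegree_smul_le _ _).trans (hb1.2.trans (hcard _))⟩, hb2.1, hb2.2.trans (hcard _)⟩
  · rw [hdet3, hdet]
    simp [mul_assoc]

theorem det_split {A B : Set σ} {D : ℕ} (E : ι → ι → Prop) (k : ℕ) :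
    ∀ M : Matrix ι ι (MvPolynomial σ K), (mixR M E).card + (mixC M E).card ≤ k →
    (∀ i j, M i j ≠ 0 → E i j → M i j ∈ supported K A) →
    (∀ i j, M i j ≠ 0 → ¬ E i j → M i j ∈ supported K B) →
    (∀ i j, (M i j).totalDegree ≤ D) → Sp A B (2 ^ k) (Fintype.card ι * D) M.det := by
  classical
  -- zeroing entries
  have hsub : ∀ M M' : Matrix ι ι (MvPolynomial σ K), (∀ i j, M' i j = M i j ∨ M' i j = 0) →
      mixR M' E ⊆ mixR M E ∧ mixC M' E ⊆ mixC M E := by
    intro M M' h
    have h1 : ∀ i j, M' i j ≠ 0 → M i j ≠ 0 := by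
      intro i j hne
      rcases h i j with h2 | h2
      · rwa [← h2]
      · exact absurd h2 hne
    constructor
    · intro i hi
      rw [mem_mixR] at hi ⊢
      obtain ⟨⟨j, hj, hE⟩, j', hj', hE'⟩ := hi
      exact ⟨⟨j, h1 _ _ hj, hE⟩, j', h1 _ _ hj', hE'⟩
    · intro j hj
      rw [mem_mixC] at hj ⊢
      obtain ⟨⟨i, hi, hE⟩, i', hi', hE'⟩ := hj
      exact ⟨⟨i, h1 _ _ hi, hE⟩, i', h1 _ _ hi', hE'⟩
  have hinh : ∀ M M' : Matrix ι ι (MvPolynomial σ K), (∀ i j, M' i j = M i j ∨ M' i j = 0) →
      (∀ i j, M i j ≠ 0 → E i j → M i j ∈ supported K A) →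
      (∀ i j, M i j ≠ 0 → ¬ E i j → M i j ∈ supported K B) →
      (∀ i j, (M i j).totalDegree ≤ D) →
      (∀ i j, M' i j ≠ 0 → E i j → M' i j ∈ supported K A) ∧
      (∀ i j, M' i j ≠ 0 → ¬ E i j → M' i j ∈ supported K B) ∧
      (∀ i j, (M' i j).totalDegree ≤ D) := by
    intro M M' h hA hB hd
    refine ⟨fun i j hne hE => ?_, fun i j hne hE => ?_, fun i j => ?_⟩
    · rcases h i j with h2 | h2
      · rw [h2] at hne ⊢; exact hA i j hne hE
      · exact absurd h2 hne
    · rcases h i j with h2 | h2
      · rw [h2] at hne ⊢; exact hB i j hne hE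
      · exact absurd h2 hne
    · rcases h i j with h2 | h2
      · rw [h2]; exact hd i j
      · rw [h2, totalDegree_zero]; exact Nat.zero_le _
  induction k with
  | zero =>
    intro M hk hA hB hd
    refine det_pure ?_ ?_ hA hB hd
    · rw [← Finset.card_eq_zero]; omega
    · rw [← Finset.card_eq_zero]; omega
  | succ k ih =>
    intro M hk hA hB hd
    by_cases hR : (mixR M E).Nonempty
    · obtain ⟨i, hi⟩ := hR
      set u : ι → MvPolynomial σ K := fun j => if E i j then M i j else 0 with hu
      set v : ι → MvPolynomial σ K := fun j => if E i j then 0 else M i j with hv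
      have huv : M = M.updateRow i (u + v) := by
        ext1 a b
        rw [Matrix.updateRow_apply]
        split_ifs with h
        · subst h
          by_cases hE : E a b
          · simp [hu, hv, hE]
          · simp [hu, hv, hE]
        · rfl
      have key : ∀ w : ι → MvPolynomial σ K, (∀ j, w j = M i j ∨ w j = 0) →
          i ∉ mixR (M.updateRow i w) E →
          Sp A B (2 ^ k) (Fintype.card ι * D) (M.updateRow i w).det := by
        intro w hw hni
        have h1 : ∀ a b, M.updateRow i w a b = M a b ∨ M.updateRow i w a b = 0 := by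
          intro a b
          rw [Matrix.updateRow_apply]
          split_ifs with h
          · subst h; exact hw b
          · exact Or.inl rfl
        obtain ⟨h2, h3⟩ := hsub M _ h1
        obtain ⟨h4, h5, h6⟩ := hinh M _ h1 hA hB hd
        refine ih _ ?_ h4 h5 h6
        have h7 : (mixR (M.updateRow i w) E).card < (mixR M E).card :=
          Finset.card_lt_card ⟨h2, fun h => hni (h hi)⟩
        have h8 := Finset.card_le_card h3
        omega
      rw [huv, Matrix.det_updateRow_add, pow_succ, mul_two]
      refine Sp.add (key u (fun j => ?_) ?_) (key v (fun j => ?_) ?_)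
      · rw [hu]; simp only; split_ifs <;> simp
      · rw [mem_mixR]
        rintro ⟨-, j, hj, hE⟩
        apply hj
        rw [Matrix.updateRow_self, hu]
        simp only
        rw [if_neg hE]
      · rw [hv]; simp only; split_ifs <;> simp
      · rw [mem_mixR]
        rintro ⟨⟨j, hj, hE⟩, -⟩
        apply hj
        rw [Matrix.updateRow_self, hv]
        simp only
        rw [if_pos hE]
    · by_cases hC : (mixC M E).Nonempty
      · obtain ⟨c, hc⟩ := hC
        set u : ι → MvPolynomial σ K := fun i => if E i c then M i c else 0 with hu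
        set v : ι → MvPolynomial σ K := fun i => if E i c then 0 else M i c with hv
        have huv : M = M.updateCol c (u + v) := by
          ext1 a b
          rw [Matrix.updateCol_apply]
          split_ifs with h
          · subst h
            by_cases hE : E a b
            · simp [hu, hv, hE]
            · simp [hu, hv, hE]
          · rfl
        have key : ∀ w : ι → MvPolynomial σ K, (∀ i, w i = M i c ∨ w i = 0) →
            c ∉ mixC (M.updateCol c w) E →
            Sp A B (2 ^ k) (Fintype.card ι * D) (M.updateCol c w).det := by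
          intro w hw hni
          have h1 : ∀ a b, M.updateCol c w a b = M a b ∨ M.updateCol c w a b = 0 := by
            intro a b
            rw [Matrix.updateCol_apply]
            split_ifs with h
            · subst h; exact hw a
            · exact Or.inl rfl
          obtain ⟨h2, h3⟩ := hsub M _ h1
          obtain ⟨h4, h5, h6⟩ := hinh M _ h1 hA hB hd
          refine ih _ ?_ h4 h5 h6
          have h7 : (mixC (M.updateCol c w) E).card < (mixC M E).card :=
            Finset.card_lt_card ⟨h3, fun h => hni (h hc)⟩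
          have h8 := Finset.card_le_card h2
          omega
        rw [huv, Matrix.det_updateCol_add, pow_succ, mul_two]
        refine Sp.add (key u (fun j => ?_) ?_) (key v (fun j => ?_) ?_)
        · rw [hu]; simp only; split_ifs <;> simp
        · rw [mem_mixC]
          rintro ⟨-, j, hj, hE⟩
          apply hj
          rw [Matrix.updateCol_self, hu]
          simp only
          rw [if_neg hE]
        · rw [hv]; simp only; split_ifs <;> simp
        · rw [mem_mixC]
          rintro ⟨⟨j, hj, hE⟩, -⟩
          apply hj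
          rw [Matrix.updateCol_self, hv]
          simp only
          rw [if_pos hE]
      · rw [Finset.not_nonempty_iff_eq_empty] at hR hC
        exact (det_pure hR hC hA hB hd).mono subset_rfl subset_rfl Nat.one_le_two_pow le_rfl

end Pool.Agent.TH483
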