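import Mathlib
import Pool.Agent.TH483.Det

/-!
Branch decompositions, linear layouts, and the order of the variables.
-/

set_option autoImplicit false
set_option linter.unusedSectionVars false

namespace Pool.Agent.TH483

open MvPolynomial

/-! ### Branch decompositions -/

/-- `Br c E`: the elements of `E` can be placed at the leaves of a binary tree such that `c` holds
for the set of the elements at the leaves of every subtree. -/
inductive Br {α : Type*} [DecidableEq α] (c : Finset α → Prop) : Finset α → Prop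
  | empty : Br c ∅
  | leaf (a : α) : c {a} → Br c {a}
  | node (E F : Finset α) : Br c E → Br c F → Disjoint E F → c (E ∪ F) → Br c (E ∪ F)

/-- The boundary of a set `E` of objects, where the object `a` contains the elements of `inc a`: the
elements which are contained in an object of `E` and in another object. -/
noncomputable def bd {α β : Type*} [Fintype β] (inc : α → Finset β) (E : Finset α) : Finset β := by
  classical
  exact Finset.univ.filter fun z => (∃ e ∈ E, z ∈ inc e) ∧ ∃ e, e ∉ E ∧ z ∈ inc e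

section

variable {α β : Type*} [Fintype β] {inc : α → Finset β}

theorem mem_bd {E : Finset α} {z : β} :
    z ∈ bd inc E ↔ (∃ e ∈ E, z ∈ inc e) ∧ ∃ e, e ∉ E ∧ z ∈ inc e := by
  unfold bd
  simp

theorem bd_empty : bd inc (∅ : Finset α) = ∅ := by
  ext z
  rw [mem_bd]
  simp

variable [DecidableEq α] [DecidableEq β]

theorem bd_union (E F : Finset α) : bd inc (E ∪ F) ⊆ bd inc E ∪ bd inc F := by
  intro z hz
  rw [mem_bd] at hz
  rw [Finset.mem_union, mem_bd, mem_bd]
  obtain ⟨⟨e, he, hez⟩, e', he', hez'⟩ := hz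
  rw [Finset.mem_union, not_or] at he'
  rcases Finset.mem_union.1 he with he | he
  · exact Or.inl ⟨⟨e, he, hez⟩, e', he'.1, hez'⟩
  · exact Or.inr ⟨⟨e, he, hez⟩, e', he'.2, hez'⟩

theorem bd_sdiff (E F : Finset α) : bd inc (E \ F) ⊆ bd inc E ∪ bd inc F := by
  intro z hz
  rw [mem_bd] at hz
  rw [Finset.mem_union, mem_bd, mem_bd]
  obtain ⟨⟨e, he, hez⟩, e', he', hez'⟩ := hz
  rw [Finset.mem_sdiff] at he he'
  by_cases h : e' ∈ E
  · have hF : e' ∈ F := by
      by_contra h2
      exact he' ⟨h, h2⟩
    exact Or.inr ⟨⟨e', hF, hez'⟩, e, he.2, hez⟩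
  · exact Or.inl ⟨⟨e, he.1, hez⟩, e', h, hez'⟩

/-- A branch decomposition of width `w` gives a list of the objects such that the boundary of each
final segment has at most `w (log₂ |E| + 1)` elements. -/
theorem Br.layout {w : ℕ} {E : Finset α} (h : Br (fun F => (bd inc F).card ≤ w) E) :
    ∃ L : List α, L.length = E.card ∧ (∀ a, a ∈ L ↔ a ∈ E) ∧
      ∀ t, (bd inc (L.drop t).toFinset).card ≤ w * (Nat.log 2 E.card + 1) := by
  classical
  induction h with
  | empty => exact ⟨[], rfl, by simp, fun t => by simp [bd_empty]⟩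
  | leaf a ha =>
    refine ⟨[a], by simp, by simp, fun t => ?_⟩
    rcases Nat.eq_zero_or_pos t with rfl | ht
    · simpa using ha
    · rw [List.drop_eq_nil_of_le (by rw [List.length_singleton]; omega)]
      simp [bd_empty]
  | node E F hE hF hd hc ihE ihF =>
    have hcard : (E ∪ F).card = E.card + F.card := Finset.card_union_of_disjoint hd
    have bound : ∀ G : Finset α, Br (fun F => (bd inc F).card ≤ w) G → (bd inc G).card ≤ w := by
      intro G hG
      cases hG with
      | empty => simp [bd_empty]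
      | leaf a ha => exact ha
      | node E F _ _ _ hc => exact hc
    -- the general step
    have key : ∀ E F : Finset α, E.card ≤ F.card → (bd inc F).card ≤ w →
        (∃ L : List α, L.length = E.card ∧ (∀ a, a ∈ L ↔ a ∈ E) ∧
          ∀ t, (bd inc (L.drop t).toFinset).card ≤ w * (Nat.log 2 E.card + 1)) →
        (∃ L : List α, L.length = F.card ∧ (∀ a, a ∈ L ↔ a ∈ F) ∧
          ∀ t, (bd inc (L.drop t).toFinset).card ≤ w * (Nat.log 2 F.card + 1)) →
        ∃ L : List α, L.length = E.card + F.card ∧ (∀ a, a ∈ L ↔ a ∈ E ∪ F) ∧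
          ∀ t, (bd inc (L.drop t).toFinset).card ≤ w * (Nat.log 2 (E.card + F.card) + 1) := by
      rintro E F hEF hbF ⟨L, hL, hLm, hLt⟩ ⟨L', hL', hLm', hLt'⟩
      refine ⟨L ++ L', by rw [List.length_append, hL, hL'], fun a => ?_, fun t => ?_⟩
      · rw [List.mem_append, Finset.mem_union, hLm, hLm']
      · rcases lt_or_ge t L.length with ht | ht
        · rw [List.drop_append_of_le_length ht.le, List.toFinset_append]
          have hF' : L'.toFinset = F := by ext a; rw [List.mem_toFinset, hLm']
          rw [hF']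
          refine (Finset.card_le_card (bd_union _ _)).trans ((Finset.card_union_le _ _).trans ?_)
          have h1 := hLt t
          have h2 : Nat.log 2 E.card + 1 ≤ Nat.log 2 (E.card + F.card) := by
            have h3 : E.card ≠ 0 := by omega
            have h4 : Nat.log 2 (E.card * 2) ≤ Nat.log 2 (E.card + F.card) :=
              Nat.log_mono_right (by omega)
            rwa [Nat.log_mul_base (by norm_num) h3] at h4
          calc (bd inc (L.drop t).toFinset).card + (bd inc F).card
              ≤ w * (Nat.log 2 E.card + 1) + w := Nat.add_le_add h1 hbF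
            _ = w * ((Nat.log 2 E.card + 1) + 1) := by ring
            _ ≤ _ := Nat.mul_le_mul_left _ (by omega)
        · rw [List.drop_append, List.drop_eq_nil_of_le ht, List.nil_append]
          refine (hLt' _).trans (Nat.mul_le_mul_left _ ?_)
          have := Nat.log_mono_right (b := 2) (show F.card ≤ E.card + F.card by omega)
          omega
    rw [hcard]
    rcases le_total E.card F.card with h | h
    · exact key E F h (bound F hF) ihE ihF
    · obtain ⟨L, h1, h2, h3⟩ := key F E h (bound E hE) ihF ihE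
      rw [add_comm E.card F.card]
      refine ⟨L, h1, fun a => ?_, h3⟩
      rw [h2, Finset.union_comm]

end

/-! ### The order of the variables -/

variable {n : ℕ} {K : Type*} [Field K]

theorem cf_empty (f : MvPolynomial (Fin n) K) (m : Fin n →₀ ℕ) :
    cf ∅ m f = if m = 0 then f else 0 := by
  have h1 : ∀ x : Fin n →₀ ℕ, inn ∅ x = 0 := fun x => by ext u; rw [inn_apply]; simp
  have h2 : ∀ x : Fin n →₀ ℕ, out ∅ x = x := fun x => by ext u; rw [out_apply]; simp
  conv_lhs => rw [as_sum f]
  rw [map_sum]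
  simp only [cf_monomial, h1, h2]
  by_cases hm : m = 0
  · subst hm
    simp only [if_true]
    exact (as_sum f).symm
  · rw [if_neg hm]
    refine Finset.sum_eq_zero fun x _ => ?_
    rw [if_neg (Ne.symm hm)]

theorem rk_empty {W : ℕ} (hW : 1 ≤ W) (f : MvPolynomial (Fin n) K) : Rk ∅ W f := by
  classical
  refine ⟨{f}, by simpa using hW, fun m => ?_⟩
  rw [cf_empty]
  split_ifs
  · exact Submodule.subset_span (by simp)
  · exact Submodule.zero_mem _

/-- A decreasing sequence of sets of variables, along which the polynomial splits. -/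
theorem ordRk_of_chain {f : MvPolynomial (Fin n) K} {V : ℕ → Finset (Fin n)} {len w c W D : ℕ}
    (hW : 1 ≤ W) (hV : ∀ t, V (t + 1) ⊆ V t) (hw : ∀ t, (V t \ V (t + 1)).card ≤ w)
    (hlen : V len = ∅)
    (h : ∀ s t, s ≤ t → ∃ A B : Finset (Fin n), Sp (A : Set (Fin n)) (B : Set (Fin n)) W D f ∧
      A ⊆ V s ∧ B ⊆ V 0 ∧ ((A ∩ V t) ∪ (B ∩ (V s \ V t))).card ≤ c) :
    OrdRk (W * (D + 1) ^ (c + 2 * w)) f := by
  classical
  have hanti : ∀ s t, s ≤ t → V t ⊆ V s := by
    intro s t hst
    induction t, hst using Nat.le_induction with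
    | base => exact subset_rfl
    | succ t _ ih => exact (hV t).trans ih
  have hlen' : ∀ t, len ≤ t → V t = ∅ := fun t ht => Finset.subset_empty.1 (hlen ▸ hanti _ _ ht)
  set τ : Fin n → ℕ := fun x => ((Finset.range len).filter fun t => x ∈ V t).card with hτ
  have hτlen : ∀ x, τ x ≤ len := fun x =>
    (Finset.card_filter_le _ _).trans (by rw [Finset.card_range])
  have hτV : ∀ x t, x ∈ V t ↔ t < τ x := by
    intro x t
    have hset : (Finset.range len).filter (fun t => x ∈ V t) = Finset.range (τ x) := by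
      have hsub : ∀ s ∈ (Finset.range len).filter (fun t => x ∈ V t), ∀ r ≤ s,
          r ∈ (Finset.range len).filter (fun t => x ∈ V t) := by
        intro s hs r hr
        rw [Finset.mem_filter, Finset.mem_range] at hs ⊢
        exact ⟨by omega, hanti r s hr hs.2⟩
      refine Finset.eq_of_subset_of_card_le ?_ (by rw [Finset.card_range])
      intro s hs
      rw [Finset.mem_range]
      have h1 : Finset.range (s + 1) ⊆ (Finset.range len).filter (fun t => x ∈ V t) := by
        intro r hr
        exact hsub s hs r (Nat.lt_succ_iff.1 (Finset.mem_range.1 hr))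
      have h2 := Finset.card_le_card h1
      rw [Finset.card_range] at h2
      exact h2
    rcases lt_or_ge t len with ht | ht
    · rw [← Finset.mem_range, ← hset, Finset.mem_filter, Finset.mem_range]
      exact ⟨fun h => ⟨ht, h⟩, fun h => h.2⟩
    · rw [hlen' t ht]
      have := hτlen x
      simp only [Finset.notMem_empty, false_iff, not_lt]
      omega
  have hgrp : ∀ t, (Finset.univ.filter fun x => x ∈ V 0 ∧ τ x = t).card ≤ w := by
    intro t
    rcases Nat.eq_zero_or_pos t with rfl | ht
    · refine le_trans (le_of_eq ?_) (Nat.zero_le _)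
      rw [Finset.card_eq_zero, Finset.filter_eq_empty_iff]
      rintro x - ⟨h1, h2⟩
      rw [hτV] at h1
      omega
    · refine (Finset.card_le_card ?_).trans (hw (t - 1))
      intro x hx
      rw [Finset.mem_filter] at hx
      rw [Finset.mem_sdiff, hτV, hτV]
      omega
  -- the order
  set lt' : Fin n → Fin n → Prop := fun y x => τ y < τ x ∨ (τ y = τ x ∧ y < x) with hlt'
  set ρ : Fin n → ℕ := fun x => (Finset.univ.filter fun y => lt' y x).card with hρ
  have htrans : ∀ x y z, lt' x y → lt' y z → lt' x z := by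
    intro x y z h1 h2
    simp only [hlt'] at h1 h2 ⊢
    rcases h1 with h1 | h1 <;> rcases h2 with h2 | h2
    · left; omega
    · left; omega
    · left; omega
    · right; exact ⟨by omega, h1.2.trans h2.2⟩
  have hirr : ∀ x, ¬ lt' x x := by
    intro x h1
    simp only [hlt'] at h1
    rcases h1 with h1 | h1
    · omega
    · exact lt_irrefl _ h1.2
  have htot : ∀ x y, x ≠ y → lt' x y ∨ lt' y x := by
    intro x y hne
    simp only [hlt']
    rcases lt_trichotomy (τ x) (τ y) with h1 | h1 | h1
    · exact Or.inl (Or.inl h1)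
    · rcases lt_or_gt_of_ne hne with h2 | h2
      · exact Or.inl (Or.inr ⟨h1, h2⟩)
      · exact Or.inr (Or.inr ⟨h1.symm, h2⟩)
    · exact Or.inr (Or.inl h1)
  have hmono : ∀ x y, lt' x y → ρ x < ρ y := by
    intro x y hxy
    refine Finset.card_lt_card ⟨fun z hz => ?_, fun hsub => ?_⟩
    · rw [Finset.mem_filter] at hz ⊢
      exact ⟨hz.1, htrans _ _ _ hz.2 hxy⟩
    · have := hsub (Finset.mem_filter.2 ⟨Finset.mem_univ x, hxy⟩)
      rw [Finset.mem_filter] at this
      exact hirr x this.2
  have hinj : Function.Injective ρ := by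
    intro x y hxy
    by_contra hne
    rcases htot x y hne with h1 | h1
    · have := hmono _ _ h1; omega
    · have := hmono _ _ h1; omega
  have hρn : ∀ x, ρ x < n := by
    intro x
    have h1 : (Finset.univ.filter fun y => lt' y x).card < (Finset.univ : Finset (Fin n)).card := by
      refine Finset.card_lt_card ⟨Finset.filter_subset _ _, fun hsub => ?_⟩
      have := hsub (Finset.mem_univ x)
      rw [Finset.mem_filter] at this
      exact hirr x this.2
    rwa [Finset.card_univ, Fintype.card_fin] at h1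
  have hle : ∀ x y, ρ x ≤ ρ y → τ x ≤ τ y := by
    intro x y hxy
    by_contra hcon
    have : lt' y x := Or.inl (not_le.1 hcon)
    have := hmono _ _ this
    omega
  have hsurj : ∀ a < n, ∃ x, ρ x = a := by
    intro a ha
    have hb : Function.Bijective (fun x : Fin n => (⟨ρ x, hρn x⟩ : Fin n)) := by
      rw [Fintype.bijective_iff_injective_and_card]
      exact ⟨fun x y hxy => hinj (Fin.mk.inj hxy), rfl⟩
    obtain ⟨x, hx⟩ := hb.2 ⟨a, ha⟩
    exact ⟨x, Fin.mk.inj hx⟩
  refine ⟨ρ, hinj, hρn, fun a b => ?_⟩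
  have hW' : 1 ≤ W * (D + 1) ^ (c + 2 * w) := Nat.one_le_iff_ne_zero.2 (by positivity)
  rcases le_or_gt b a with hab | hab
  · have h1 : (Finset.univ.filter fun u => a ≤ ρ u ∧ ρ u < b) = ∅ := by
      rw [Finset.filter_eq_empty_iff]
      rintro x - ⟨h1, h2⟩
      omega
    rw [h1]
    exact rk_empty hW' f
  rcases le_or_gt n a with hna | hna
  · have h1 : (Finset.univ.filter fun u => a ≤ ρ u ∧ ρ u < b) = ∅ := by
      rw [Finset.filter_eq_empty_iff]
      rintro x - ⟨h1, h2⟩
      have := hρn x
      omega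
    rw [h1]
    exact rk_empty hW' f
  -- the thresholds
  obtain ⟨s, hs1, hs2⟩ : ∃ s, (∀ x, ρ x < a → τ x ≤ s) ∧ ∀ x, a ≤ ρ x → s ≤ τ x := by
    obtain ⟨y, hy⟩ := hsurj a hna
    exact ⟨τ y, fun x hx => hle x y (by omega), fun x hx => hle y x (by omega)⟩
  obtain ⟨t, ht1, ht2⟩ : ∃ t, (∀ x, ρ x < b → τ x ≤ t) ∧ ∀ x, b ≤ ρ x → t ≤ τ x := by
    rcases lt_or_ge b n with hb | hb
    · obtain ⟨y, hy⟩ := hsurj b hb
      exact ⟨τ y, fun x hx => hle x y (by omega), fun x hx => hle y x (by omega)⟩
    · refine ⟨len, fun x _ => hτlen x, fun x hx => ?_⟩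
      have := hρn x
      omega
  have hst : s ≤ t := by
    obtain ⟨y, hy⟩ := hsurj a hna
    exact (hs2 y (by omega)).trans (ht1 y (by omega))
  obtain ⟨A, B, hSp, hA, hB, hc⟩ := h s t hst
  set U : Finset (Fin n) := Finset.univ.filter fun u => a ≤ ρ u ∧ ρ u < b with hU
  have hmemU : ∀ x, x ∈ U ↔ a ≤ ρ x ∧ ρ x < b := by intro x; rw [hU]; simp
  have hrk := hSp.rk (U := U) (X₁ := A \ U) (X₂ := B ∩ U)
    (fun x hx hxU => Finset.mem_sdiff.2 ⟨hx, hxU⟩) (fun x hx hxU => Finset.mem_inter.2 ⟨hx, hxU⟩)
    Finset.sdiff_disjoint Finset.inter_subset_right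
  obtain ⟨S, hS, hS'⟩ := hrk
  refine ⟨S, hS.trans (Nat.mul_le_mul_left _ (Nat.pow_le_pow_right (Nat.succ_pos _) ?_)), hS'⟩
  have hdisj : Disjoint (A \ U) (B ∩ U) := by
    rw [Finset.disjoint_left]
    intro x h1 h2
    exact (Finset.mem_sdiff.1 h1).2 (Finset.mem_inter.1 h2).2
  rw [← Finset.card_union_of_disjoint hdisj]
  have hsub : (A \ U) ∪ (B ∩ U) ⊆ ((A ∩ V t) ∪ (B ∩ (V s \ V t))) ∪
      ((Finset.univ.filter fun x => x ∈ V 0 ∧ τ x = s) ∪
        (Finset.univ.filter fun x => x ∈ V 0 ∧ τ x = t)) := by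
    intro x hx
    simp only [Finset.mem_union, Finset.mem_sdiff, Finset.mem_inter, Finset.mem_filter,
      Finset.mem_univ, true_and, hmemU] at hx ⊢
    rcases hx with ⟨hxA, hxU⟩ | ⟨hxB, hxU⟩
    · have h1 : s < τ x := (hτV x s).1 (hA hxA)
      have h2 : t ≤ τ x := by
        rcases lt_or_ge (ρ x) a with h3 | h3
        · have := hs1 x h3; omega
        · rcases lt_or_ge (ρ x) b with h4 | h4
          · exact absurd ⟨h3, h4⟩ hxU
          · exact ht2 x h4
      rcases h2.eq_or_lt with h3 | h3
      · exact Or.inr (Or.inr ⟨(hτV x 0).2 (by omega), h3.symm⟩)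
      · exact Or.inl (Or.inl ⟨hxA, (hτV x t).2 h3⟩)
    · have h0 := hB hxB
      have h1 : s ≤ τ x := hs2 x hxU.1
      have h2 : τ x ≤ t := ht1 x hxU.2
      rcases h1.eq_or_lt with h3 | h3
      · exact Or.inr (Or.inl ⟨h0, h3.symm⟩)
      · refine Or.inl (Or.inr ⟨hxB, (hτV x s).2 h3, fun h4 => ?_⟩)
        have := (hτV x t).1 h4
        omega
  refine (Finset.card_le_card hsub).trans ((Finset.card_union_le _ _).trans ?_)
  have h1 := Finset.card_union_le (Finset.univ.filter fun x => x ∈ V 0 ∧ τ x = s)
    (Finset.univ.filter fun x => x ∈ V 0 ∧ τ x = t)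
  have h2 := hgrp s
  have h3 := hgrp t
  omega

end Pool.Agent.TH483
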