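import Mathlib
import Pool.Agent.TH483.Layout

/-!
Minors of matrices with a linear layout have small rank with respect to the intervals of an order of
the variables.
-/

set_option autoImplicit false
set_option linter.unusedSectionVars false

namespace Pool.Agent.TH483

open MvPolynomial

variable {n : ℕ} {K : Type*} [Field K] {R C α : Type*} [Fintype R] [DecidableEq R] [Fintype C]
  [DecidableEq C] [DecidableEq α]

/-- the entry `(i, j)` touches its row, its column and its variables -/
def Tch (M : Matrix R C (MvPolynomial (Fin n) K)) (i : R) (j : C) : R ⊕ (C ⊕ Fin n) → Prop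
  | .inl i' => i' = i
  | .inr (.inl j') => j' = j
  | .inr (.inr x) => x ∈ (M i j).vars

/-- the rows, columns and variables which are touched by the nonzero entries `(i, j)` with
`f i j = a` -/
noncomputable def inc (M : Matrix R C (MvPolynomial (Fin n) K)) (f : R → C → α) (a : α) :
    Finset (R ⊕ (C ⊕ Fin n)) := by
  classical
  exact Finset.univ.filter fun z => ∃ i j, M i j ≠ 0 ∧ f i j = a ∧ Tch M i j z

theorem mem_inc {M : Matrix R C (MvPolynomial (Fin n) K)} {f : R → C → α} {a : α}
    {z : R ⊕ (C ⊕ Fin n)} : z ∈ inc M f a ↔ ∃ i j, M i j ≠ 0 ∧ f i j = a ∧ Tch M i j z := by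
  unfold inc
  simp

/-- the variables of the entries `(i, j)` with `f i j = a` -/
noncomputable def vinc (M : Matrix R C (MvPolynomial (Fin n) K)) (f : R → C → α) (a : α) :
    Finset (Fin n) := by
  classical
  exact Finset.univ.filter fun x => ∃ i j, f i j = a ∧ x ∈ (M i j).vars

theorem mem_vinc {M : Matrix R C (MvPolynomial (Fin n) K)} {f : R → C → α} {a : α}
    {x : Fin n} : x ∈ vinc M f a ↔ ∃ i j, f i j = a ∧ x ∈ (M i j).vars := by
  unfold vinc
  simp

theorem vinc_iff {M : Matrix R C (MvPolynomial (Fin n) K)} {f : R → C → α} {a : α}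
    {x : Fin n} : x ∈ vinc M f a ↔ Sum.inr (Sum.inr x) ∈ inc M f a := by
  rw [mem_vinc, mem_inc]
  constructor
  · rintro ⟨i, j, h1, h2⟩
    refine ⟨i, j, fun h0 => ?_, h1, h2⟩
    rw [h0, vars_0] at h2
    exact absurd h2 (Finset.notMem_empty _)
  · rintro ⟨i, j, -, h1, h2⟩
    exact ⟨i, j, h1, h2⟩

theorem minor_ordRk {M : Matrix R C (MvPolynomial (Fin n) K)} {f : R → C → α} {L : List α}
    {q w δ r : ℕ} (hL : ∀ i j, M i j ≠ 0 → f i j ∈ L)
    (hbd : ∀ t, (bd (inc M f) (L.drop t).toFinset).card ≤ q)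
    (hvar : ∀ a, (vinc M f a).card ≤ w) (hδ : ∀ i j, (M i j).totalDegree ≤ δ) {g : Fin r → R}
    {h : Fin r → C} (hg : Function.Injective g) (hh : Function.Injective h) :
    OrdRk (2 ^ (2 * q) * (r * δ + 1) ^ (2 * q + 2 * w)) (M.submatrix g h).det := by
  classical
  set V : ℕ → Finset (Fin n) := fun t => (L.drop t).toFinset.biUnion (vinc M f) with hV
  have hVm : ∀ t x, x ∈ V t ↔ ∃ a ∈ L.drop t, x ∈ vinc M f a := by
    intro t x
    rw [hV]
    simp
  refine ordRk_of_chain (V := V) (len := L.length) Nat.one_le_two_pow ?_ ?_ ?_ ?_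
  · intro t x hx
    rw [hVm] at hx ⊢
    obtain ⟨a, ha, hxa⟩ := hx
    refine ⟨a, ?_, hxa⟩
    rw [← List.drop_drop] at ha
    exact List.mem_of_mem_drop ha
  · intro t
    rcases lt_or_ge t L.length with ht | ht
    · refine (Finset.card_le_card ?_).trans (hvar L[t])
      intro x hx
      rw [Finset.mem_sdiff, hVm, hVm] at hx
      obtain ⟨⟨a, ha, hxa⟩, h2⟩ := hx
      rw [List.drop_eq_getElem_cons ht, List.mem_cons] at ha
      rcases ha with rfl | ha
      · exact hxa
      · exact absurd ⟨a, ha, hxa⟩ h2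
    · refine le_trans (le_of_eq ?_) (Nat.zero_le _)
      rw [Finset.card_eq_zero]
      ext x
      rw [Finset.mem_sdiff, hVm, List.drop_eq_nil_of_le ht]
      simp
  · ext x
    rw [hVm, List.drop_eq_nil_of_le le_rfl]
    simp
  · intro s t hst
    -- the entries between the cuts
    set F : Finset α := (L.drop s).toFinset \ (L.drop t).toFinset with hF
    have hFm : ∀ a, a ∈ F ↔ a ∈ L.drop s ∧ a ∉ L.drop t := by
      intro a
      rw [hF]
      simp
    have hFbd : (bd (inc M f) F).card ≤ 2 * q := by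
      refine (Finset.card_le_card (bd_sdiff _ _)).trans ((Finset.card_union_le _ _).trans ?_)
      have h1 := hbd s
      have h2 := hbd t
      omega
    set A : Finset (Fin n) := F.biUnion (vinc M f) with hA
    have hAm : ∀ x, x ∈ A ↔ ∃ a ∈ F, x ∈ vinc M f a := by intro x; rw [hA]; simp
    set B : Finset (Fin n) := Finset.univ.filter fun x => ∃ a ∉ F, x ∈ vinc M f a with hB
    have hBm : ∀ x, x ∈ B ↔ ∃ a ∉ F, x ∈ vinc M f a := by intro x; rw [hB]; simp
    refine ⟨A, B, ?_, ?_, ?_, ?_⟩
    · set E' : Fin r → Fin r → Prop := fun i j => f (g i) (h j) ∈ F with hE'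
      have h1 : (mixR (M.submatrix g h) E').card + (mixC (M.submatrix g h) E').card ≤ 2 * q := by
        refine le_trans ?_ hFbd
        have h2 : (mixR (M.submatrix g h) E').card + (mixC (M.submatrix g h) E').card =
            (((mixR (M.submatrix g h) E').image fun i =>
              (Sum.inl (g i) : R ⊕ (C ⊕ Fin n))) ∪ ((mixC (M.submatrix g h) E').image fun j =>
              (Sum.inr (Sum.inl (h j)) : R ⊕ (C ⊕ Fin n)))).card := by
          rw [Finset.card_union_of_disjoint, Finset.card_image_of_injective,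
            Finset.card_image_of_injective]
          · intro a b hab
            exact hh (Sum.inl_injective (Sum.inr_injective hab))
          · intro a b hab
            exact hg (Sum.inl_injective hab)
          · rw [Finset.disjoint_left]
            intro z hz hz'
            rw [Finset.mem_image] at hz hz'
            obtain ⟨i, -, rfl⟩ := hz
            obtain ⟨j, -, hj⟩ := hz'
            cases hj
        rw [h2]
        refine Finset.card_le_card ?_
        intro z hz
        rw [Finset.mem_union, Finset.mem_image, Finset.mem_image] at hz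
        rw [mem_bd]
        rcases hz with ⟨i, hi, rfl⟩ | ⟨j, hj, rfl⟩
        · rw [mem_mixR] at hi
          obtain ⟨⟨j, hj, hE⟩, j', hj', hE2⟩ := hi
          exact ⟨⟨_, hE, mem_inc.2 ⟨g i, h j, hj, rfl, rfl⟩⟩,
            _, hE2, mem_inc.2 ⟨g i, h j', hj', rfl, rfl⟩⟩
        · rw [mem_mixC] at hj
          obtain ⟨⟨i, hi, hE⟩, i', hi', hE2⟩ := hj
          exact ⟨⟨_, hE, mem_inc.2 ⟨g i, h j, hi, rfl, rfl⟩⟩,
            _, hE2, mem_inc.2 ⟨g i', h j, hi', rfl, rfl⟩⟩
      have h2 := det_split (A := (A : Set (Fin n))) (B := (B : Set (Fin n))) (D := δ) E' _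
        (M.submatrix g h) h1 (by
          intro i j hij hE
          rw [mem_supported]
          intro x hx
          exact (hAm x).2 ⟨_, hE, mem_vinc.2 ⟨g i, h j, rfl, hx⟩⟩) (by
          intro i j hij hE
          rw [mem_supported]
          intro x hx
          exact (hBm x).2 ⟨_, hE, mem_vinc.2 ⟨g i, h j, rfl, hx⟩⟩) (fun i j => hδ _ _)
      rwa [Fintype.card_fin] at h2
    · intro x hx
      obtain ⟨a, ha, hxa⟩ := (hAm x).1 hx
      exact (hVm s x).2 ⟨a, ((hFm a).1 ha).1, hxa⟩
    · intro x hx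
      obtain ⟨a, ha, hxa⟩ := (hBm x).1 hx
      rw [hVm, List.drop_zero]
      refine ⟨a, ?_, hxa⟩
      obtain ⟨i, j, rfl, hx'⟩ := mem_vinc.1 hxa
      refine hL i j fun h0 => ?_
      rw [h0, vars_0] at hx'
      exact absurd hx' (Finset.notMem_empty _)
    · refine le_trans ?_ hFbd
      rw [← Finset.card_image_of_injective (f := fun x : Fin n =>
        (Sum.inr (Sum.inr x) : R ⊕ (C ⊕ Fin n))) _
        (fun a b hab => Sum.inr_injective (Sum.inr_injective hab))]
      refine Finset.card_le_card ?_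
      intro z hz
      rw [Finset.mem_image] at hz
      obtain ⟨x, hx, rfl⟩ := hz
      rw [mem_bd]
      rw [Finset.mem_union, Finset.mem_inter, Finset.mem_inter, Finset.mem_sdiff] at hx
      rcases hx with ⟨hxA, hxV⟩ | ⟨hxB, hxs, hxt⟩
      · obtain ⟨a, ha, hxa⟩ := (hAm x).1 hxA
        obtain ⟨b, hb, hxb⟩ := (hVm t x).1 hxV
        exact ⟨⟨a, ha, vinc_iff.1 hxa⟩, b, fun h => ((hFm b).1 h).2 hb, vinc_iff.1 hxb⟩
      · obtain ⟨b, hb, hxb⟩ := (hBm x).1 hxB
        obtain ⟨a, ha, hxa⟩ := (hVm s x).1 hxs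
        refine ⟨⟨a, (hFm a).2 ⟨ha, fun h => hxt ((hVm t x).2 ⟨a, h, hxa⟩)⟩, vinc_iff.1 hxa⟩,
          b, hb, vinc_iff.1 hxb⟩

end Pool.Agent.TH483
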