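import Mathlib
import Pool.Agent.TH483.Minor
import Pool.Agent.TH483.Factor

/-!
Divisors of products of arbitrarily many polynomials of small rank.
-/

set_option autoImplicit false

namespace Pool.Agent.TH483

open MvPolynomial

variable {n : ℕ} {K : Type*} [Field K]

theorem rk_mono {σ : Type*} [DecidableEq σ] {U : Finset σ} {W W' : ℕ}
    {f : MvPolynomial σ K} (h : Rk U W f) (hW : W ≤ W') : Rk U W' f := by
  obtain ⟨S, hS, h'⟩ := h
  exact ⟨S, hS.trans hW, h'⟩

theorem ordRk_mono {W W' : ℕ} {f : MvPolynomial (Fin n) K} (h : OrdRk W f) (hW : W ≤ W') :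
    OrdRk W' f := by
  obtain ⟨ρ, h1, h2, h3⟩ := h
  exact ⟨ρ, h1, h2, fun a b => rk_mono (h3 a b) hW⟩

theorem ordRk_one {W : ℕ} (hW : 1 ≤ W) : OrdRk W (1 : MvPolynomial (Fin n) K) := by
  classical
  refine ⟨fun u => (u : ℕ), Fin.val_injective, fun u => u.2, fun a b => ⟨{1}, by simpa using hW,
    fun m => ?_⟩⟩
  have h1 : (1 : MvPolynomial (Fin n) K) = monomial 0 1 := rfl
  conv in cf _ m _ => rw [h1, cf_monomial]
  split_ifs
  · have h2 : out (Finset.univ.filter fun u : Fin n => a ≤ (u : ℕ) ∧ (u : ℕ) < b)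
        (0 : Fin n →₀ ℕ) = 0 := by
      ext u
      rw [out_apply]
      simp
    rw [h2]
    exact Submodule.subset_span (by rw [← h1]; simp)
  · exact Submodule.zero_mem _

theorem exists_hit' [CharZero K] {J : ℕ} {f : Fin J → MvPolynomial (Fin n) K}
    (hf0 : ∀ i, f i ≠ 0) {D W h : ℕ} (hf : ∀ i, (f i).totalDegree ≤ D) (hW : 1 ≤ W)
    (hn : n ≤ 2 ^ h) (hr : ∀ i, OrdRk W (f i)) {g : MvPolynomial (Fin n) K}
    (hg : g ∣ ∏ i, f i) {d : ℕ} (hd : g.totalDegree ≤ d) :
    ∃ q ∈ hit n D W d h d, eval (fun u => (q u : K)) g ≠ 0 := by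
  classical
  have hg0 : g ≠ 0 := by
    rintro rfl
    rw [zero_dvd_iff] at hg
    exact (Finset.prod_ne_zero_iff.2 fun i _ => hf0 i) hg
  obtain ⟨l, hl, hgl⟩ := exists_few f g hg0 hg
  have hl' : l.length ≤ d := hl.trans hd
  set F : Fin d → MvPolynomial (Fin n) K := fun i =>
    if h : (i : ℕ) < l.length then f (l[(i : ℕ)]) else 1 with hF
  have hFc : ∀ i, F i = 1 ∨ ∃ j, F i = f j := by
    intro i
    rw [hF]
    simp only
    split_ifs with h
    · exact Or.inr ⟨_, rfl⟩
    · exact Or.inl rfl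
  refine exists_hit (f := F) (fun i => ?_) (fun i => ?_) hW hn (fun i => ?_) ?_ hd
  · rcases hFc i with h | ⟨j, h⟩
    · rw [h]; exact one_ne_zero
    · rw [h]; exact hf0 j
  · rcases hFc i with h | ⟨j, h⟩
    · rw [h, totalDegree_one]; exact Nat.zero_le _
    · rw [h]; exact hf j
  · rcases hFc i with h | ⟨j, h⟩
    · rw [h]; exact ordRk_one hW
    · rw [h]; exact hr j
  · refine hgl.trans ?_
    have h1 : (l.map f).prod = ∏ i : Fin l.length, f (l[(i : ℕ)]) := by
      exact (Fin.prod_univ_fun_getElem l f).symm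
    rw [h1]
    have h2 : (∏ i : Fin l.length, f (l[(i : ℕ)])) = ∏ i : Fin l.length, F (Fin.castLE hl' i) := by
      refine Finset.prod_congr rfl fun i _ => ?_
      rw [hF]
      simp only [Fin.val_castLE]
      rw [dif_pos i.2]
    rw [h2, ← Finset.prod_image (s := Finset.univ) (g := Fin.castLE hl')
      (fun a _ b _ hab => Fin.castLE_injective hl' hab)]
    exact Finset.prod_dvd_prod_of_subset _ _ _ (Finset.subset_univ _)

end Pool.Agent.TH483
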