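import Mathlib

/-!
Nonzero minors of matrices over a field.
-/

set_option autoImplicit false

namespace Pool.Agent.TH483

theorem exists_rows {F R C : Type*} [Field F] [Finite R] [Fintype C] (B : Matrix R C F) :
    ∃ e : Fin B.rank → R, LinearIndependent F (B.submatrix e id).row := by
  have h := Submodule.exists_fun_fin_finrank_span_eq F (Set.range B.row)
  rw [← B.rank_eq_finrank_span_row] at h
  obtain ⟨f, hf, -, hli⟩ := h
  choose e he using hf
  refine ⟨e, ?_⟩
  have : (B.submatrix e id).row = f := by
    funext i
    rw [← he i]
    rfl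
  rw [this]
  exact hli

theorem exists_minor {F R C : Type*} [Field F] [Fintype R] [Fintype C] (B : Matrix R C F) :
    ∃ (e : Fin B.rank → R) (f : Fin B.rank → C), (B.submatrix e f).det ≠ 0 := by
  classical
  obtain ⟨e, he⟩ := exists_rows B
  have h1 : (B.submatrix e id).rank = B.rank := by
    rw [he.rank_matrix, Fintype.card_fin]
  have h2 : (B.submatrix e id).transpose.rank = B.rank := by
    rw [Matrix.rank_transpose, h1]
  obtain ⟨f, hf⟩ := exists_rows (B.submatrix e id).transpose
  refine ⟨e, f ∘ finCongr h2.symm, ?_⟩
  have h3 : LinearIndependent F (B.submatrix e (f ∘ finCongr h2.symm)).transpose.row := by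
    have := hf.comp (finCongr h2.symm) (finCongr h2.symm).injective
    exact this
  have h4 := Matrix.linearIndependent_rows_iff_isUnit.1 h3
  rw [Matrix.isUnit_iff_isUnit_det, Matrix.det_transpose] at h4
  exact h4.ne_zero

theorem le_rank_of_minor {F R C : Type*} [Field F] [Fintype C] {r : ℕ}
    (B : Matrix R C F) (e : Fin r → R) (f : Fin r → C) (h : (B.submatrix e f).det ≠ 0) :
    r ≤ B.rank := by
  have h1 := Matrix.rank_of_det_ne_zero h
  rw [Fintype.card_fin] at h1
  rw [← h1]
  exact Matrix.rank_submatrix_le B e f

theorem inj_of_det {S R C : Type*} [CommRing S] {r : ℕ} (B : Matrix R C S) (e : Fin r → R)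
    (f : Fin r → C) (h : (B.submatrix e f).det ≠ 0) :
    Function.Injective e ∧ Function.Injective f := by
  constructor
  · intro i i' hii
    by_contra hne
    exact h (Matrix.det_zero_of_row_eq hne (by funext j; simp [Matrix.submatrix_apply, hii]))
  · intro i i' hii
    by_contra hne
    exact h (Matrix.det_zero_of_column_eq hne (by intro j; simp [Matrix.submatrix_apply, hii]))

end Pool.Agent.TH483
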