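import Mathlib
import Pool.Agent.TH483.Layout

/-!
A tree decomposition gives a branch decomposition.
-/

set_option autoImplicit false
set_option linter.unusedSectionVars false

namespace Pool.Agent.TH483

/-- the parent, with `0` as its own parent -/
def par' (par : ℕ → ℕ) (j : ℕ) : ℕ := if j = 0 then 0 else par j

/-- `i` is an ancestor of `j` or equal to `j` -/
def Anc (par : ℕ → ℕ) (i j : ℕ) : Prop := ∃ a : ℕ, (par' par)^[a] j = i

section

variable {par : ℕ → ℕ}

theorem Anc.refl (i : ℕ) : Anc par i i := ⟨0, rfl⟩

theorem Anc.trans {i j k : ℕ} (h₁ : Anc par i j) (h₂ : Anc par j k) : Anc par i k := by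
  obtain ⟨a, ha⟩ := h₁
  obtain ⟨b, hb⟩ := h₂
  refine ⟨a + b, ?_⟩
  rw [Function.iterate_add_apply, hb, ha]

theorem Anc.of_par {i j : ℕ} (h : Anc par i (par' par j)) : Anc par i j := by
  obtain ⟨a, ha⟩ := h
  exact ⟨a + 1, by rw [Function.iterate_succ_apply, ha]⟩

theorem Anc.to_par {i j : ℕ} (h : Anc par i j) (hne : i ≠ j) : Anc par i (par' par j) := by
  obtain ⟨a, ha⟩ := h
  cases a with
  | zero => exact absurd ha.symm hne
  | succ a => exact ⟨a, by rw [← Function.iterate_succ_apply, ha]⟩

theorem Anc.total {i i' j : ℕ} (h : Anc par i j) (h' : Anc par i' j) : Anc par i i' ∨ Anc par i' i := by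
  obtain ⟨a, ha⟩ := h
  obtain ⟨b, hb⟩ := h'
  rcases le_total a b with hab | hab
  · right
    refine ⟨b - a, ?_⟩
    rw [← ha, ← Function.iterate_add_apply, Nat.sub_add_cancel hab, hb]
  · left
    refine ⟨a - b, ?_⟩
    rw [← hb, ← Function.iterate_add_apply, Nat.sub_add_cancel hab, ha]

variable (hpar : ∀ i, 0 < i → par i < i)

include hpar

theorem par'_le (j : ℕ) : par' par j ≤ j := by
  unfold par'
  split_ifs with h
  · omega
  · exact (hpar j (by omega)).le

theorem Anc.le {i j : ℕ} (h : Anc par i j) : i ≤ j := by
  obtain ⟨a, ha⟩ := h
  rw [← ha]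
  clear ha
  induction a generalizing j with
  | zero => exact le_rfl
  | succ a ih =>
    rw [Function.iterate_succ_apply]
    exact ih.trans (par'_le hpar j)

theorem anc_zero (j : ℕ) : Anc par 0 j := by
  induction j using Nat.strong_induction_on with
  | _ j ih =>
    rcases Nat.eq_zero_or_pos j with rfl | hj
    · exact Anc.refl 0
    · refine Anc.of_par (ih _ ?_)
      unfold par'
      rw [if_neg (by omega)]
      exact hpar j hj

/-- the nodes between the top node of `z` and a node whose bag contains `z` -/
theorem chain_mem {β : Type*} {B : ℕ → Finset β} {m : ℕ} {z : β} {t : ℕ}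
    (hsub : ∀ i < m, z ∈ B i → (∃ j < i, z ∈ B j) → z ∈ B (par i)) (ht : z ∈ B t)
    (hmin : ∀ i, z ∈ B i → t ≤ i) : ∀ x < m, z ∈ B x → Anc par t x ∧
      ∀ u, Anc par u x → t ≤ u → z ∈ B u := by
  intro x
  induction x using Nat.strong_induction_on with
  | _ x ih =>
    intro hx hzx
    rcases (hmin x hzx).eq_or_lt with h | h
    · subst h
      refine ⟨Anc.refl _, fun u hu htu => ?_⟩
      have := Anc.le hpar hu
      have : u = t := by omega
      subst this
      exact ht
    · have h1 := hsub x hx hzx ⟨t, h, ht⟩
      have h2 := hpar x (by omega)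
      have h3 : par' par x = par x := by
        unfold par'
        rw [if_neg (by omega)]
      obtain ⟨h4, h5⟩ := ih (par x) h2 (by omega) h1
      refine ⟨Anc.of_par (by rw [h3]; exact h4), fun u hu htu => ?_⟩
      by_cases hux : u = x
      · subst hux; exact hzx
      · exact h5 u (by rw [← h3]; exact hu.to_par hux) htu

theorem mem_par {β : Type*} {B : ℕ → Finset β} {m : ℕ} {z : β}
    (hsub : ∀ i < m, z ∈ B i → (∃ j < i, z ∈ B j) → z ∈ B (par i)) {c x y : ℕ} (hc : 0 < c)
    (hx : x < m) (hy : y < m) (hzx : z ∈ B x) (hzy : z ∈ B y) (hcx : Anc par c x)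
    (hcy : ¬ Anc par c y) : z ∈ B (par c) := by
  classical
  obtain ⟨t, ht, hmin⟩ : ∃ t, z ∈ B t ∧ ∀ i, z ∈ B i → t ≤ i :=
    ⟨Nat.find ⟨x, hzx⟩, Nat.find_spec (⟨x, hzx⟩ : ∃ t, z ∈ B t), fun i hi => Nat.find_min' _ hi⟩
  obtain ⟨h1, h2⟩ := chain_mem hpar hsub ht hmin x hx hzx
  obtain ⟨h3, -⟩ := chain_mem hpar hsub ht hmin y hy hzy
  have h4 : Anc par t c := by
    rcases hcx.total h1 with h | h
    · exact absurd (h.trans h3) hcy
    · exact h
  have h5 : t ≠ c := by
    rintro rfl
    exact hcy h3
  have h6 : par' par c = par c := by
    unfold par'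
    rw [if_neg (by omega)]
  have h7 := h4.to_par h5
  rw [h6] at h7
  refine h2 (par c) ?_ (Anc.le hpar h7)
  exact (Anc.of_par (by rw [h6]; exact Anc.refl _)).trans hcx

end

/-- **Tree decompositions give branch decompositions.** -/
theorem br_of_tree {α β : Type*} [Fintype α] [DecidableEq α] [Fintype β] [DecidableEq β]
    {inc : α → Finset β} {w m : ℕ} {B : ℕ → Finset β} {par : ℕ → ℕ}
    (hpar : ∀ i, 0 < i → par i < i) (hB : ∀ i < m, (B i).card ≤ w)
    (hsub : ∀ z, ∀ i < m, z ∈ B i → (∃ j < i, z ∈ B j) → z ∈ B (par i))
    (hinc : ∀ a, ∃ i < m, inc a ⊆ B i) :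
    Br (fun F => (bd inc F).card ≤ w) (Finset.univ : Finset α) := by
  classical
  choose nd hnd hndB using hinc
  set S : ℕ → Finset α := fun i => Finset.univ.filter fun a => Anc par i (nd a) with hS
  have hSm : ∀ i a, a ∈ S i ↔ Anc par i (nd a) := by intro i a; rw [hS]; simp
  rcases Nat.eq_zero_or_pos m with rfl | hm
  · have : (Finset.univ : Finset α) = ∅ := by
      rw [Finset.eq_empty_iff_forall_notMem]
      intro a _
      exact absurd (hnd a) (by omega)
    rw [this]
    exact Br.empty
  have hS0 : S 0 = Finset.univ := by
    ext a
    rw [hSm]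
    simp only [Finset.mem_univ, iff_true]
    exact anc_zero hpar _
  rw [← hS0]
  have main : ∀ k i, m - i = k → i < m → Br (fun F => (bd inc F).card ≤ w) (S i) := by
    intro k
    induction k using Nat.strong_induction_on with
    | _ k ih =>
      intro i hk hi
      set ch : Finset ℕ := (Finset.range m).filter fun c => 0 < c ∧ par c = i with hch
      have hchm : ∀ c, c ∈ ch ↔ c < m ∧ 0 < c ∧ par c = i := by intro c; rw [hch]; simp
      set own : Finset α := Finset.univ.filter fun a => nd a = i with hown
      have hownm : ∀ a, a ∈ own ↔ nd a = i := by intro a; rw [hown]; simp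
      have hpc : ∀ c ∈ ch, i < c ∧ par' par c = i := by
        intro c hc
        rw [hchm] at hc
        have := hpar c hc.2.1
        refine ⟨by omega, ?_⟩
        unfold par'
        rw [if_neg (by omega)]
        exact hc.2.2
      -- the boundary of a partial union
      have hbd : ∀ O ⊆ own, ∀ T ⊆ ch, (bd inc (O ∪ T.biUnion S)).card ≤ w := by
        intro O hO T hT
        refine (Finset.card_le_card ?_).trans (hB i hi)
        intro z hz
        rw [mem_bd] at hz
        obtain ⟨⟨e, he, hze⟩, e', he', hze'⟩ := hz
        rw [Finset.mem_union, not_or] at he'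
        rcases Finset.mem_union.1 he with he | he
        · have := hndB e hze
          rwa [(hownm e).1 (hO he)] at this
        · rw [Finset.mem_biUnion] at he
          obtain ⟨c, hc, hec⟩ := he
          have hcm := (hchm c).1 (hT hc)
          have h1 := mem_par hpar (hsub z) hcm.2.1 (hnd e) (hnd e') (hndB e hze) (hndB e' hze')
            ((hSm c e).1 hec) (fun h => he'.2 (Finset.mem_biUnion.2 ⟨c, hc, (hSm c e').2 h⟩))
          rwa [hcm.2.2] at h1
      have hO : ∀ O ⊆ own, Br (fun F => (bd inc F).card ≤ w) O := by
        intro O
        induction O using Finset.induction_on with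
        | empty => intro _; exact Br.empty
        | insert a O ha ihO =>
          intro hsubO
          rw [Finset.insert_eq]
          refine Br.node {a} O (Br.leaf a ?_) (ihO fun x hx => hsubO (Finset.mem_insert_of_mem hx))
            (by simpa using ha) ?_
          · have := hbd {a} (Finset.singleton_subset_iff.2 (hsubO (Finset.mem_insert_self a O))) ∅
              (Finset.empty_subset _)
            rw [Finset.biUnion_empty, Finset.union_empty] at this
            exact this
          · have := hbd (insert a O) hsubO ∅ (Finset.empty_subset _)
            rw [Finset.biUnion_empty, Finset.union_empty, Finset.insert_eq] at this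
            exact this
      have hT : ∀ T ⊆ ch, Br (fun F => (bd inc F).card ≤ w) (own ∪ T.biUnion S) := by
        intro T
        induction T using Finset.induction_on with
        | empty =>
          intro _
          rw [Finset.biUnion_empty, Finset.union_empty]
          exact hO own subset_rfl
        | insert c T hc ihT =>
          intro hsubT
          have hcch : c ∈ ch := hsubT (Finset.mem_insert_self c T)
          obtain ⟨hic, hpc'⟩ := hpc c hcch
          have hcm := (hchm c).1 hcch
          have e : own ∪ (insert c T).biUnion S = (own ∪ T.biUnion S) ∪ S c := by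
            rw [Finset.biUnion_insert, Finset.union_assoc, Finset.union_comm (S c)]
          have h2 := hbd own subset_rfl (insert c T) hsubT
          rw [e] at h2 ⊢
          refine Br.node _ _ (ihT fun x hx => hsubT (Finset.mem_insert_of_mem hx))
            (ih (m - c) (by omega) c rfl hcm.1) ?_ h2
          rw [Finset.disjoint_left]
          intro a ha hac
          rw [hSm] at hac
          rcases Finset.mem_union.1 ha with ha | ha
          · rw [hownm] at ha
            rw [ha] at hac
            have := Anc.le hpar hac
            omega
          · rw [Finset.mem_biUnion] at ha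
            obtain ⟨c', hc', hac'⟩ := ha
            rw [hSm] at hac'
            have hne : c' ≠ c := fun h => hc (h ▸ hc')
            obtain ⟨hic', hpc''⟩ := hpc c' (hsubT (Finset.mem_insert_of_mem hc'))
            rcases hac.total hac' with h | h
            · have h3 := h.to_par hne.symm
              rw [hpc''] at h3
              have := Anc.le hpar h3
              omega
            · have h3 := h.to_par hne
              rw [hpc'] at h3
              have := Anc.le hpar h3
              omega
      have hSi : S i = own ∪ ch.biUnion S := by
        ext a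
        rw [hSm, Finset.mem_union, hownm, Finset.mem_biUnion]
        constructor
        · intro h
          by_cases hne : nd a = i
          · exact Or.inl hne
          · right
            -- the child of `i` on the way to the node of `a`
            obtain ⟨b, hb⟩ := h
            have hex : ∃ b, (par' par)^[b] (nd a) = i := ⟨b, hb⟩
            set b₀ := Nat.find hex with hb₀
            have hb₀s : (par' par)^[b₀] (nd a) = i := Nat.find_spec hex
            have hb₀p : b₀ ≠ 0 := by
              intro h0
              rw [h0] at hb₀s
              exact hne hb₀s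
            obtain ⟨b₁, hb₁⟩ := Nat.exists_eq_succ_of_ne_zero hb₀p
            set c := (par' par)^[b₁] (nd a) with hc
            have hcp : par' par c = i := by
              rw [hc, ← Function.iterate_succ_apply' (par' par)]
              rw [hb₁] at hb₀s
              exact hb₀s
            have hci : c ≠ i := by
              intro h0
              have := Nat.find_min hex (m := b₁) (by omega)
              exact this h0
            have hcanc : Anc par c (nd a) := ⟨b₁, rfl⟩
            have hc0 : c ≠ 0 := by
              intro h0
              rw [h0] at hcp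
              unfold par' at hcp
              rw [if_pos rfl] at hcp
              exact hci (h0.trans hcp)
            refine ⟨c, (hchm c).2 ⟨(Anc.le hpar hcanc).trans_lt (hnd a), by omega, ?_⟩,
              (hSm c a).2 hcanc⟩
            unfold par' at hcp
            rwa [if_neg hc0] at hcp
        · rintro (h | ⟨c, hc, hac⟩)
          · rw [h]; exact Anc.refl _
          · rw [hSm] at hac
            refine Anc.trans (Anc.of_par ?_) hac
            rw [(hpc c hc).2]
            exact Anc.refl _
      rw [hSi]
      exact hT ch subset_rfl
  exact main (m - 0) 0 rfl hm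

end Pool.Agent.TH483
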