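import Mathlib
import Pool.Agent.TH483.Minor
import Pool.Agent.TH483.TreeBr
import Pool.Agent.TH483.Rank
import Pool.Agent.H789R5.RF.TD
import Pool.Agent.H789R5.RF.Rank

/-!
The symbolic rigidity matrix of a graph with a linear layout.
-/

set_option autoImplicit false
set_option linter.unusedSectionVars false

namespace Pool.Agent.TH483

open MvPolynomial Pool.Agent.H283R2.DR Pool.Agent.H789R5

variable {n d : ℕ}

/-- the variable for the coordinate `i` of the vertex `v` -/
noncomputable def Y (v : Fin n) (i : Fin d) : MvPolynomial (Fin (n * d)) ℝ :=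
  X (finProdFinEquiv (v, i))

/-- the row of the edge `uv` of the symbolic rigidity matrix -/
noncomputable def srow (u v : Fin n) (c : Fin n × Fin d) : MvPolynomial (Fin (n * d)) ℝ :=
  if c.1 = u then Y u c.2 - Y v c.2 else if c.1 = v then Y v c.2 - Y u c.2 else 0

theorem srow_comm (u v : Fin n) : (srow u v : Fin n × Fin d → _) = srow v u := by
  funext c
  unfold srow
  split_ifs with h1 h2 h2
  · rw [← h1, ← h2]
  · rfl
  · rfl
  · rfl

/-- the symbolic rigidity matrix -/
noncomputable def smat (d : ℕ) (G : SimpleGraph (Fin n)) :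
    Matrix G.edgeSet (Fin n × Fin d) (MvPolynomial (Fin (n * d)) ℝ) :=
  fun e => Sym2.lift ⟨srow, srow_comm⟩ e.1

/-- the placement with coordinates `x` -/
def plc (x : Fin (n * d) → ℝ) : Fin n → Fin d → ℝ := fun v i => x (finProdFinEquiv (v, i))

theorem eval_srow (x : Fin (n * d) → ℝ) (u v : Fin n) (c : Fin n × Fin d) :
    eval x (srow u v c) = row (plc x) u v c := by
  unfold srow row plc Y
  split_ifs <;> simp

theorem eval_smat (G : SimpleGraph (Fin n)) (x : Fin (n * d) → ℝ) :
    (smat d G).map (eval x) = rigidityMatrix G (plc x) := by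
  ext1 e c
  obtain ⟨e, he⟩ := e
  induction e using Sym2.ind with
  | _ u v => exact eval_srow x u v c

/-- the ends of an edge -/
def ends (G : SimpleGraph (Fin n)) (e : G.edgeSet) : Finset (Fin n) :=
  Finset.univ.filter fun v => v ∈ e.1

theorem mem_ends {G : SimpleGraph (Fin n)} {e : G.edgeSet} {v : Fin n} :
    v ∈ ends G e ↔ v ∈ e.1 := by
  unfold ends
  simp

theorem ends_card (G : SimpleGraph (Fin n)) (e : G.edgeSet) : (ends G e).card ≤ 2 := by
  classical
  obtain ⟨e, he⟩ := e
  induction e using Sym2.ind with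
  | _ u v =>
    have : ends G ⟨s(u, v), he⟩ ⊆ {u, v} := by
      intro x hx
      rw [mem_ends] at hx
      simpa using hx
    exact (Finset.card_le_card this).trans Finset.card_le_two

theorem Y_mem {v : Fin n} {i : Fin d} {S : Set (Fin (n * d))} (h : finProdFinEquiv (v, i) ∈ S) :
    (Y v i : MvPolynomial (Fin (n * d)) ℝ) ∈ supported ℝ S := X_mem_supported.2 h

theorem smat_mem (G : SimpleGraph (Fin n)) (e : G.edgeSet) (c : Fin n × Fin d) :
    smat d G e c ∈ supported ℝ {x : Fin (n * d) | (finProdFinEquiv.symm x).1 ∈ e.1} := by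
  obtain ⟨e, he⟩ := e
  induction e using Sym2.ind with
  | _ u v =>
    change srow u v c ∈ _
    have hu : ∀ i : Fin d, finProdFinEquiv (u, i) ∈
        {x : Fin (n * d) | (finProdFinEquiv.symm x).1 ∈ s(u, v)} := by
      intro i
      change (finProdFinEquiv.symm (finProdFinEquiv (u, i))).1 ∈ s(u, v)
      rw [Equiv.symm_apply_apply]
      simp
    have hv : ∀ i : Fin d, finProdFinEquiv (v, i) ∈
        {x : Fin (n * d) | (finProdFinEquiv.symm x).1 ∈ s(u, v)} := by
      intro i
      change (finProdFinEquiv.symm (finProdFinEquiv (v, i))).1 ∈ s(u, v)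
      rw [Equiv.symm_apply_apply]
      simp
    unfold srow
    split_ifs
    · exact Subalgebra.sub_mem _ (Y_mem (hu _)) (Y_mem (hv _))
    · exact Subalgebra.sub_mem _ (Y_mem (hv _)) (Y_mem (hu _))
    · exact Subalgebra.zero_mem _

theorem smat_ne {G : SimpleGraph (Fin n)} {e : G.edgeSet} {c : Fin n × Fin d}
    (h : smat d G e c ≠ 0) : c.1 ∈ e.1 := by
  obtain ⟨e, he⟩ := e
  induction e using Sym2.ind with
  | _ u v =>
    change srow u v c ≠ 0 at h
    unfold srow at h
    change c.1 ∈ s(u, v)
    split_ifs at h with h1 h2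
    · rw [h1]; simp
    · rw [h2]; simp
    · exact absurd rfl h

theorem smat_deg (G : SimpleGraph (Fin n)) (e : G.edgeSet) (c : Fin n × Fin d) :
    (smat d G e c).totalDegree ≤ 1 := by
  obtain ⟨e, he⟩ := e
  induction e using Sym2.ind with
  | _ u v =>
    change (srow u v c).totalDegree ≤ 1
    have hY : ∀ (w : Fin n) (i : Fin d), (Y w i).totalDegree ≤ 1 := by
      intro w i
      unfold Y
      rw [totalDegree_X]
    unfold srow
    split_ifs
    · exact (totalDegree_sub _ _).trans (max_le (hY _ _) (hY _ _))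
    · exact (totalDegree_sub _ _).trans (max_le (hY _ _) (hY _ _))
    · simp

theorem smat_vars {G : SimpleGraph (Fin n)} {e : G.edgeSet} {c : Fin n × Fin d}
    {x : Fin (n * d)} (h : x ∈ (smat d G e c).vars) : (finProdFinEquiv.symm x).1 ∈ e.1 :=
  mem_supported.1 (smat_mem G e c) h

theorem bd_smat (G : SimpleGraph (Fin n)) [Fintype G.edgeSet] (F : Finset G.edgeSet) :
    (bd (inc (smat d G) fun e _ => e) F).card ≤ 2 * d * (bd (ends G) F).card := by
  classical
  have hsub : bd (inc (smat d G) fun e _ => e) F ⊆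
      ((bd (ends G) F ×ˢ (Finset.univ : Finset (Fin d))).image fun c =>
        (Sum.inr (Sum.inl c) : G.edgeSet ⊕ ((Fin n × Fin d) ⊕ Fin (n * d)))) ∪
      ((bd (ends G) F ×ˢ (Finset.univ : Finset (Fin d))).image fun c =>
        (Sum.inr (Sum.inr (finProdFinEquiv c)) :
          G.edgeSet ⊕ ((Fin n × Fin d) ⊕ Fin (n * d)))) := by
    intro z hz
    rw [mem_bd] at hz
    obtain ⟨⟨e, he, hze⟩, e', he', hze'⟩ := hz
    rw [mem_inc] at hze hze'
    obtain ⟨a, c, h1, h2, h3⟩ := hze
    obtain ⟨a', c', h1', h2', h3'⟩ := hze'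
    subst h2 h2'
    rw [Finset.mem_union, Finset.mem_image, Finset.mem_image]
    rcases z with z | z | z
    · have e1 : z = a := h3
      have e2 : z = a' := h3'
      exact absurd (e1 ▸ he) (e2 ▸ he')
    · have e1 : z = c := h3
      have e2 : z = c' := h3'
      subst e1
      subst e2
      left
      refine ⟨z, Finset.mem_product.2 ⟨mem_bd.2 ⟨⟨a, he, ?_⟩, a', he', ?_⟩,
        Finset.mem_univ _⟩, rfl⟩
      · exact mem_ends.2 (smat_ne h1)
      · exact mem_ends.2 (smat_ne h1')
    · have e1 : z ∈ (smat d G a c).vars := h3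
      have e2 : z ∈ (smat d G a' c').vars := h3'
      right
      refine ⟨finProdFinEquiv.symm z, Finset.mem_product.2 ⟨mem_bd.2 ⟨⟨a, he, ?_⟩, a', he', ?_⟩,
        Finset.mem_univ _⟩, by rw [Equiv.apply_symm_apply]⟩
      · exact mem_ends.2 (smat_vars e1)
      · exact mem_ends.2 (smat_vars e2)
  refine (Finset.card_le_card hsub).trans ((Finset.card_union_le _ _).trans ?_)
  have h1 := Finset.card_image_le (s := bd (ends G) F ×ˢ (Finset.univ : Finset (Fin d)))
    (f := fun c => (Sum.inr (Sum.inl c) : G.edgeSet ⊕ ((Fin n × Fin d) ⊕ Fin (n * d))))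
  have h2 := Finset.card_image_le (s := bd (ends G) F ×ˢ (Finset.univ : Finset (Fin d)))
    (f := fun c => (Sum.inr (Sum.inr (finProdFinEquiv c)) :
      G.edgeSet ⊕ ((Fin n × Fin d) ⊕ Fin (n * d))))
  rw [Finset.card_product, Finset.card_univ, Fintype.card_fin] at h1 h2
  calc _ ≤ (bd (ends G) F).card * d + (bd (ends G) F).card * d := Nat.add_le_add h1 h2
    _ = _ := by ring

theorem vinc_smat (G : SimpleGraph (Fin n)) [Fintype G.edgeSet] (e : G.edgeSet) :
    (vinc (smat d G) (fun e _ => e) e).card ≤ 2 * d := by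
  classical
  have hsub : vinc (smat d G) (fun e _ => e) e ⊆
      (ends G e ×ˢ (Finset.univ : Finset (Fin d))).image finProdFinEquiv := by
    intro x hx
    rw [mem_vinc] at hx
    obtain ⟨a, c, h1, h2⟩ := hx
    subst h1
    rw [Finset.mem_image]
    exact ⟨finProdFinEquiv.symm x, Finset.mem_product.2 ⟨mem_ends.2 (smat_vars h2),
      Finset.mem_univ _⟩, Equiv.apply_symm_apply _ _⟩
  refine (Finset.card_le_card hsub).trans (Finset.card_image_le.trans ?_)
  rw [Finset.card_product, Finset.card_univ, Fintype.card_fin]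
  exact Nat.mul_le_mul_right _ (ends_card G e)

/-- the number of the edges of a graph -/
theorem edge_card_le (G : SimpleGraph (Fin n)) [Fintype G.edgeSet] :
    Fintype.card G.edgeSet ≤ n ^ 2 := by
  classical
  have h1 : Fintype.card G.edgeSet ≤ Fintype.card (Sym2 (Fin n)) :=
    Fintype.card_le_of_injective (fun e => (e : Sym2 (Fin n))) Subtype.val_injective
  have h2 : Fintype.card (Sym2 (Fin n)) ≤ Fintype.card (Fin n × Fin n) :=
    Fintype.card_le_of_surjective _ Sym2.mk_surjective
  rw [Fintype.card_prod, Fintype.card_fin] at h2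
  rw [pow_two]
  exact h1.trans h2

/-- a linear layout of the edges of a graph of small treewidth -/
theorem edge_layout {k : ℕ} {G : SimpleGraph (Fin n)} (hG : TreewidthLE k G) :
    ∃ L : List G.edgeSet, (∀ e, e ∈ L) ∧
      ∀ t, (bd (ends G) (L.drop t).toFinset).card ≤ (k + 1) * (Nat.log 2 (n ^ 2) + 1) := by
  classical
  obtain ⟨m, B, par, hT⟩ := hG
  have hbr : Br (fun F => (bd (ends G) F).card ≤ k + 1) (Finset.univ : Finset G.edgeSet) := by
    refine br_of_tree hT.parent_lt hT.card_le hT.subtree ?_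
    rintro ⟨e, he⟩
    induction e using Sym2.ind with
    | _ u v =>
      obtain ⟨i, hi, hu, hv⟩ := hT.edge u v he
      refine ⟨i, hi, fun x hx => ?_⟩
      rw [mem_ends] at hx
      rcases Sym2.mem_iff.1 hx with rfl | rfl
      · exact hu
      · exact hv
  obtain ⟨L, -, hL, hbd⟩ := hbr.layout
  refine ⟨L, fun e => (hL e).2 (Finset.mem_univ _), fun t => ?_⟩
  have h1 := hbd t
  have e1 : (L.drop t).toFinset = (L.drop t).toFinset := rfl
  refine le_trans ?_ (h1.trans (Nat.mul_le_mul_left _ (Nat.add_le_add_right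
    (Nat.log_mono_right ?_) 1)))
  · exact le_of_eq (by congr!)
  · rw [Finset.card_univ]
    exact edge_card_le G

end Pool.Agent.TH483
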