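import Mathlib
import Pool.Agent.TH483.Many

/-!
Bounds for the explicit set in terms of a bound for the rank.
-/

set_option autoImplicit false

namespace Pool.Agent.TH483

theorem base_le (n d : ℕ) {D W : ℕ} (hW : 1 ≤ W) :
    2 * (d + 1) * (D + d * (n ^ 2 * W ^ 4) + 1) ≤
      ((n + 1) * (d + 1)) ^ 2 * (2 * (D + 1) * W ^ 4) := by
  have hW41 : 1 ≤ W ^ 4 := Nat.one_le_pow _ _ hW
  have h1 : D + d * (n ^ 2 * W ^ 4) + 1 ≤ (n + 1) ^ 2 * (d + 1) * ((D + 1) * W ^ 4) := by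
    have e1 : (n + 1) ^ 2 * (d + 1) * ((D + 1) * W ^ 4) = (D + 1) * W ^ 4 + d * (n ^ 2 * W ^ 4) +
        (d * (n ^ 2 * D * W ^ 4) + (d * (2 * n + 1) + (n ^ 2 + 2 * n)) * ((D + 1) * W ^ 4)) := by
      ring
    have e2 : (D + 1) * 1 ≤ (D + 1) * W ^ 4 := Nat.mul_le_mul_left _ hW41
    rw [e1]
    omega
  calc 2 * (d + 1) * (D + d * (n ^ 2 * W ^ 4) + 1)
      ≤ 2 * (d + 1) * ((n + 1) ^ 2 * (d + 1) * ((D + 1) * W ^ 4)) := Nat.mul_le_mul_left _ h1
    _ = ((n + 1) * (d + 1)) ^ 2 * (2 * (D + 1) * W ^ 4) := by ring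

theorem hit_card' (n d h : ℕ) {D W Y : ℕ} (hW : 1 ≤ W)
    (hY : ((n + 1) * (d + 1)) ^ 2 * (2 * (D + 1) * W ^ 4) ≤ Y) :
    (hit n D W d h d).card ≤ Y ^ (2 * h + 1) :=
  (hit_card _ _ _ _ _ _).trans (Nat.pow_le_pow_left ((base_le n d hW).trans hY) _)

theorem hit_bound (n d h : ℕ) {D W Y : ℕ} (hW : 1 ≤ W)
    (hY : ((n + 1) * (d + 1)) ^ 2 * (2 * (D + 1) * W ^ 4) ≤ Y) (p : Fin n → ℤ)
    (hp : p ∈ hit n D W d h d) (i : Fin n) : |p i| ≤ ((Y ^ (Y * h + 1) : ℕ) : ℤ) := by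
  have hbase := (base_le n d (D := D) hW).trans hY
  have hppos := pr_pos n D W d
  have hple := pr_le n D W d
  unfold hit at hp
  set T := d * pr n D W d with hT
  have hY1 : 1 ≤ Y := le_trans (Nat.one_le_iff_ne_zero.2 (by positivity)) hbase
  have h1 : T ≤ Y := by
    refine le_trans ?_ hbase
    rw [hT]
    calc d * pr n D W d ≤ (d + 1) * (2 * (D + d * (n ^ 2 * W ^ 4) + 1)) :=
          Nat.mul_le_mul (Nat.le_succ _) hple
      _ = _ := by ring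
  have h2 : pr n D W d ≤ Y := by
    refine le_trans ?_ hbase
    refine hple.trans ?_
    exact Nat.mul_le_mul_right _ (by omega)
  rcases Nat.eq_zero_or_pos T with hT0 | hT0
  · unfold points at hp
    rw [Finset.mem_image] at hp
    obtain ⟨x, -, rfl⟩ := hp
    unfold point
    have : ((x.2 0 : ℕ) : ℤ) = 0 := by
      have := (x.2 0).2
      have h3 : (x.2 0 : ℕ) = 0 := by omega
      rw [h3]
      rfl
    rw [this, zero_mul, abs_zero]
    positivity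
  · refine (points_bound _ hppos _ hT0 p hp _).trans ?_
    apply Int.ofNat_le.2
    calc T ^ (pr n D W d * h + 1) ≤ Y ^ (pr n D W d * h + 1) := Nat.pow_le_pow_left h1 _
      _ ≤ Y ^ (Y * h + 1) :=
        Nat.pow_le_pow_right hY1 (Nat.add_le_add_right (Nat.mul_le_mul_right _ h2) 1)

end Pool.Agent.TH483
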