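import Mathlib
import Pool.Agent.TH483.Layout

/-!
Tree networks in which every part shares few variables with the rest.
-/

set_option autoImplicit false
set_option linter.unusedSectionVars false

namespace Pool.Agent.TH483

open MvPolynomial

/-- Networks of width `w` in `n` variables: a leaf holds `w` polynomials, and a gate computes from
the `w` values of each of its two arguments `w` values, of degree at most one in the values of each
argument. -/
inductive Net (n w : ℕ) (K : Type) [Field K] : Type
  | leaf (v : Fin w → MvPolynomial (Fin n) K) : Net n w K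
  | gate (T : Fin w → Option (Fin w) → Option (Fin w) → K) (a b : Net n w K) : Net n w K

variable {n w : ℕ} {K : Type} [Field K]

/-- the values `v` together with the constant `1` -/
noncomputable def one' (v : Fin w → MvPolynomial (Fin n) K) :
    Option (Fin w) → MvPolynomial (Fin n) K
  | none => 1
  | some i => v i

/-- the values of a network -/
noncomputable def Net.val : Net n w K → Fin w → MvPolynomial (Fin n) K
  | .leaf v => v
  | .gate T a b => fun c => ∑ i, ∑ j, C (T c i j) * (one' a.val i * one' b.val j)

/-- the variables which occur in a network -/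
noncomputable def Net.vars : Net n w K → Finset (Fin n)
  | .leaf v => Finset.univ.biUnion fun i => (v i).vars
  | .gate _ a b => a.vars ∪ b.vars

/-- the number of leaves -/
def Net.size : Net n w K → ℕ
  | .leaf _ => 1
  | .gate _ a b => a.size + b.size

/-- At most `k` variables occur at every leaf, and at most `k` of the variables which occur in a
part of the network (a subtree) occur outside of it or belong to `X`. -/
def Net.Thin (k : ℕ) : Finset (Fin n) → Net n w K → Prop
  | _, .leaf v => (Net.leaf v).vars.card ≤ k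
  | X, .gate T a b => ((Net.gate T a b).vars ∩ X).card ≤ k ∧ a.Thin k (X ∪ b.vars) ∧
      b.Thin k (X ∪ a.vars)

/-- all polynomials at the leaves have degree at most `δ` -/
def Net.Deg (δ : ℕ) : Net n w K → Prop
  | .leaf v => ∀ i, (v i).totalDegree ≤ δ
  | .gate _ a b => a.Deg δ ∧ b.Deg δ

theorem sum_flatMap {α M : Type*} [AddMonoid M] (L : List α) (g : α → List M) :
    (L.flatMap g).sum = (L.map fun a => (g a).sum).sum := by
  induction L with
  | nil => simp
  | cons a L ih => rw [List.flatMap_cons, List.sum_append, ih, List.map_cons, List.sum_cons]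

/-- A vector of polynomials is a sum of at most `r` products of a vector of polynomials in the
variables of `A` and of a polynomial in the variables of `B`, of degree at most `D`. -/
def SpV {ι : Type} (A B : Set (Fin n)) (r D : ℕ) (F : ι → MvPolynomial (Fin n) K) : Prop :=
  ∃ L : List ((ι → MvPolynomial (Fin n) K) × MvPolynomial (Fin n) K), L.length ≤ r ∧
    (∀ p ∈ L, (∀ c, p.1 c ∈ supported K A ∧ (p.1 c).totalDegree ≤ D) ∧
      p.2 ∈ supported K B ∧ p.2.totalDegree ≤ D) ∧ ∀ c, F c = (L.map fun p => p.1 c * p.2).sum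

section

variable {ι ι' : Type} {A A' B B' : Set (Fin n)}

theorem SpV.mono {r r' D D' : ℕ} {F : ι → MvPolynomial (Fin n) K} (h : SpV A B r D F)
    (hA : A ⊆ A') (hB : B ⊆ B') (hr : r ≤ r') (hD : D ≤ D') : SpV A' B' r' D' F := by
  obtain ⟨L, hl, hL, hF⟩ := h
  exact ⟨L, hl.trans hr, fun p hp => ⟨fun c => ⟨supported_mono hA ((hL p hp).1 c).1,
    ((hL p hp).1 c).2.trans hD⟩, supported_mono hB (hL p hp).2.1, (hL p hp).2.2.trans hD⟩, hF⟩

theorem SpV.outer (B : Set (Fin n)) {D : ℕ} {F : ι → MvPolynomial (Fin n) K}
    (hF : ∀ c, F c ∈ supported K A) (hD : ∀ c, (F c).totalDegree ≤ D) : SpV A B 1 D F := by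
  refine ⟨[(F, 1)], le_rfl, ?_, fun c => by simp⟩
  intro p hp
  rw [List.mem_singleton] at hp
  subst hp
  exact ⟨fun c => ⟨hF c, hD c⟩, Subalgebra.one_mem _, by simp⟩

theorem SpV.swap [Fintype ι] {r D : ℕ} {F : ι → MvPolynomial (Fin n) K}
    (h : SpV A B r D F) : SpV B A (Fintype.card ι * r) D F := by
  classical
  obtain ⟨L, hl, hL, hF⟩ := h
  refine ⟨(Finset.univ : Finset ι).toList.flatMap fun a =>
    L.map fun p => (fun c => if c = a then p.2 else 0, p.1 a), ?_, ?_, ?_⟩
  · rw [List.length_flatMap]
    simp only [List.length_map]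
    rw [List.map_const', List.sum_replicate, smul_eq_mul, Finset.length_toList, Finset.card_univ]
    exact Nat.mul_le_mul_left _ hl
  · intro p hp
    rw [List.mem_flatMap] at hp
    obtain ⟨a, -, hp⟩ := hp
    rw [List.mem_map] at hp
    obtain ⟨q, hq, rfl⟩ := hp
    obtain ⟨h1, h2, h3⟩ := hL q hq
    refine ⟨fun c => ?_, h1 a⟩
    simp only
    split_ifs
    · exact ⟨h2, h3⟩
    · exact ⟨Subalgebra.zero_mem _, by simp⟩
  · intro c
    rw [List.map_flatMap, sum_flatMap]
    simp only [List.map_map]
    have h1 : ∀ a : ι, (L.map ((fun p => p.1 c * p.2) ∘ fun p =>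
        ((fun c => if c = a then p.2 else 0 : ι → MvPolynomial (Fin n) K), p.1 a))).sum =
        if c = a then F c else 0 := by
      intro a
      split_ifs with h
      · subst h
        rw [hF c]
        congr 1
        refine List.map_congr_left fun p _ => ?_
        simp [mul_comm]
      · have : (L.map ((fun p => p.1 c * p.2) ∘ fun p =>
            ((fun c => if c = a then p.2 else 0 : ι → MvPolynomial (Fin n) K), p.1 a))) =
            L.map fun _ => (0 : MvPolynomial (Fin n) K) := by
          refine List.map_congr_left fun p _ => ?_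
          simp [h]
        rw [this]
        simp
    rw [List.map_congr_left fun a _ => h1 a]
    rw [Finset.sum_map_toList]
    simp

theorem SpV.inner [Fintype ι] (B : Set (Fin n)) {D : ℕ} {F : ι → MvPolynomial (Fin n) K}
    (hF : ∀ c, F c ∈ supported K A) (hD : ∀ c, (F c).totalDegree ≤ D) :
    SpV B A (Fintype.card ι) D F := by
  have := (SpV.outer B hF hD).swap
  rwa [mul_one] at this

theorem SpV.bilin {κ : Type} [Fintype ι] [Fintype ι'] {r₁ r₂ D₁ D₂ : ℕ}
    {F₁ : ι → MvPolynomial (Fin n) K} {F₂ : ι' → MvPolynomial (Fin n) K}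
    (h₁ : SpV A B r₁ D₁ F₁) (h₂ : SpV A B r₂ D₂ F₂) (T : κ → ι → ι' → K) :
    SpV A B (r₁ * r₂) (D₁ + D₂) (fun c => ∑ i, ∑ j, C (T c i j) * (F₁ i * F₂ j)) := by
  classical
  obtain ⟨L₁, hl₁, hL₁, hF₁⟩ := h₁
  obtain ⟨L₂, hl₂, hL₂, hF₂⟩ := h₂
  refine ⟨L₁.flatMap fun p => L₂.map fun q =>
    (fun c => ∑ i, ∑ j, C (T c i j) * (p.1 i * q.1 j), p.2 * q.2), ?_, ?_, ?_⟩
  · rw [List.length_flatMap]
    simp only [List.length_map]
    rw [List.map_const', List.sum_replicate, smul_eq_mul]
    exact Nat.mul_le_mul hl₁ hl₂
  · intro x hx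
    rw [List.mem_flatMap] at hx
    obtain ⟨p, hp, hx⟩ := hx
    rw [List.mem_map] at hx
    obtain ⟨q, hq, rfl⟩ := hx
    obtain ⟨h1, h2, h3⟩ := hL₁ p hp
    obtain ⟨h4, h5, h6⟩ := hL₂ q hq
    refine ⟨fun c => ⟨?_, ?_⟩, Subalgebra.mul_mem _ h2 h5, ?_⟩
    · refine Subalgebra.sum_mem _ fun i _ => Subalgebra.sum_mem _ fun j _ => ?_
      exact Subalgebra.mul_mem _ (Subalgebra.algebraMap_mem _ _)
        (Subalgebra.mul_mem _ (h1 i).1 (h4 j).1)
    · refine totalDegree_finsetSum_le fun i _ => totalDegree_finsetSum_le fun j _ => ?_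
      refine (totalDegree_mul _ _).trans ?_
      rw [totalDegree_C, zero_add]
      exact (totalDegree_mul _ _).trans (Nat.add_le_add (h1 i).2 (h4 j).2)
    · exact (totalDegree_mul _ _).trans (Nat.add_le_add h3 h6)
  · intro c
    rw [List.map_flatMap, sum_flatMap]
    simp only [List.map_map]
    have e1 : ∀ i j, F₁ i * F₂ j = (L₁.map fun p => (L₂.map fun q =>
        (p.1 i * q.1 j) * (p.2 * q.2)).sum).sum := by
      intro i j
      rw [hF₁ i, hF₂ j, ← List.sum_map_mul_right]
      congr 1
      refine List.map_congr_left fun p _ => ?_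
      rw [← List.sum_map_mul_left]
      congr 1
      refine List.map_congr_left fun q _ => ?_
      ring
    simp only [e1]
    clear e1 hF₁ hF₂ hL₁ hl₁ hL₂ hl₂
    -- exchange of sums
    have e2 : ∀ (L : List ((ι → MvPolynomial (Fin n) K) × MvPolynomial (Fin n) K))
        (g : ι → ι' → (ι → MvPolynomial (Fin n) K) × MvPolynomial (Fin n) K →
          MvPolynomial (Fin n) K),
        ∑ i, ∑ j, C (T c i j) * (L.map fun p => g i j p).sum =
          (L.map fun p => ∑ i, ∑ j, C (T c i j) * g i j p).sum := by
      intro L g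
      induction L with
      | nil => simp
      | cons p L ih =>
        simp only [List.map_cons, List.sum_cons, mul_add, Finset.sum_add_distrib]
        rw [ih]
    have e3 : ∀ (L : List ((ι' → MvPolynomial (Fin n) K) × MvPolynomial (Fin n) K))
        (g : ι → ι' → (ι' → MvPolynomial (Fin n) K) × MvPolynomial (Fin n) K →
          MvPolynomial (Fin n) K),
        ∑ i, ∑ j, C (T c i j) * (L.map fun p => g i j p).sum =
          (L.map fun p => ∑ i, ∑ j, C (T c i j) * g i j p).sum := by
      intro L g
      induction L with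
      | nil => simp
      | cons p L ih =>
        simp only [List.map_cons, List.sum_cons, mul_add, Finset.sum_add_distrib]
        rw [ih]
    rw [e2]
    congr 1
    refine List.map_congr_left fun p _ => ?_
    rw [e3]
    congr 1
    refine List.map_congr_left fun q _ => ?_
    simp only [Function.comp_apply, Finset.sum_mul]
    refine Finset.sum_congr rfl fun i _ => Finset.sum_congr rfl fun j _ => ?_
    ring

end

end Pool.Agent.TH483
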