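import Mathlib
import Pool.Agent.TH483.Net
import Pool.Agent.TH483.Many

/-!
Linear layouts of thin networks.
-/

set_option autoImplicit false
set_option linter.unusedSectionVars false

namespace Pool.Agent.TH483

open MvPolynomial

variable {n w : ℕ} {K : Type} [Field K]

/-- the union of a list of sets of variables -/
noncomputable def un (L : List (Finset (Fin n))) : Finset (Fin n) :=
  Finset.univ.filter fun x => ∃ a ∈ L, x ∈ a

theorem mem_un {L : List (Finset (Fin n))} {x : Fin n} : x ∈ un L ↔ ∃ a ∈ L, x ∈ a := by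
  unfold un
  simp

theorem un_append (L M : List (Finset (Fin n))) : un (L ++ M) = un L ∪ un M := by
  ext x
  rw [Finset.mem_union, mem_un, mem_un, mem_un]
  constructor
  · rintro ⟨a, ha, hx⟩
    rcases List.mem_append.1 ha with ha | ha
    · exact Or.inl ⟨a, ha, hx⟩
    · exact Or.inr ⟨a, ha, hx⟩
  · rintro (⟨a, ha, hx⟩ | ⟨a, ha, hx⟩)
    · exact ⟨a, List.mem_append.2 (Or.inl ha), hx⟩
    · exact ⟨a, List.mem_append.2 (Or.inr ha), hx⟩

theorem un_mono {L M : List (Finset (Fin n))} (h : ∀ a ∈ L, a ∈ M) : un L ⊆ un M := by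
  intro x hx
  obtain ⟨a, ha, hxa⟩ := mem_un.1 hx
  exact mem_un.2 ⟨a, h a ha, hxa⟩

theorem un_nil : un ([] : List (Finset (Fin n))) = ∅ := by
  ext x
  rw [mem_un]
  simp

theorem un_singleton (a : Finset (Fin n)) : un [a] = a := by
  ext x
  rw [mem_un]
  simp

/-- A layout of a vector of polynomials: a list of sets of variables such that the vector splits
along all intervals of the list. -/
structure Lay {ι : Type} (w k δ : ℕ) (X : Finset (Fin n)) (m : ℕ) (Λ : List (Finset (Fin n)))
    (F : ι → MvPolynomial (Fin n) K) : Prop where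
  len : Λ.length = m
  card : ∀ a ∈ Λ, a.card ≤ k
  mem : ∀ c, F c ∈ supported K (un Λ : Set (Fin n))
  deg : ∀ c, (F c).totalDegree ≤ m * δ
  cross : ∀ t, (un (Λ.drop t) ∩ (un (Λ.take t) ∪ X)).card ≤ k * (Nat.log 2 m + 1)
  one : ∀ t, SpV (un (Λ.take t) : Set (Fin n)) (un (Λ.drop t) : Set (Fin n))
    ((w + 1) ^ (Nat.log 2 m + 1)) (m * δ) F
  two : ∀ s t, s ≤ t → SpV ((un (Λ.take s) ∪ un (Λ.drop t) : Finset (Fin n)) : Set (Fin n))
    (un ((Λ.take t).drop s) : Set (Fin n)) ((w + 1) ^ (2 * Nat.log 2 m + 3)) (m * δ) F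

theorem pow_le_pow' {a b c : ℕ} (h : b ≤ c) : (a + 1) ^ b ≤ (a + 1) ^ c :=
  Nat.pow_le_pow_right (Nat.succ_pos a) h

theorem lay_leaf {k δ : ℕ} {X V : Finset (Fin n)} {F : Option (Fin w) → MvPolynomial (Fin n) K}
    (hV : V.card ≤ k) (hF : ∀ c, F c ∈ supported K (V : Set (Fin n)))
    (hδ : ∀ c, (F c).totalDegree ≤ δ) : Lay w k δ X 1 [V] F := by
  have hδ' : ∀ c, (F c).totalDegree ≤ 1 * δ := fun c => by rw [one_mul]; exact hδ c
  have hcard : Fintype.card (Option (Fin w)) = w + 1 := by simp
  have hout : ∀ (A : Finset (Fin n)) (B : Set (Fin n)) (r : ℕ), V ⊆ A → 1 ≤ r →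
      SpV (A : Set (Fin n)) B r (1 * δ) F := fun A B r hA hr =>
    (SpV.outer B hF hδ').mono (Finset.coe_subset.2 hA) subset_rfl hr le_rfl
  have hin : ∀ (A : Finset (Fin n)) (B : Set (Fin n)) (r : ℕ), V ⊆ A → w + 1 ≤ r →
      SpV B (A : Set (Fin n)) r (1 * δ) F := fun A B r hA hr =>
    (SpV.inner B hF hδ').mono subset_rfl (Finset.coe_subset.2 hA) (by rw [hcard]; exact hr) le_rfl
  have hp : ∀ m : ℕ, 1 ≤ (w + 1) ^ m := fun m => Nat.one_le_pow _ _ (Nat.succ_pos w)
  have hp1 : ∀ m : ℕ, w + 1 ≤ (w + 1) ^ (m + 1) := fun m => by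
    calc w + 1 = (w + 1) ^ 1 := (pow_one _).symm
      _ ≤ _ := pow_le_pow' (by omega)
  refine ⟨rfl, ?_, ?_, hδ', ?_, ?_, ?_⟩
  · intro a ha
    rw [List.mem_singleton] at ha
    rw [ha]; exact hV
  · intro c
    rw [un_singleton]
    exact hF c
  · intro t
    refine (Finset.card_le_card Finset.inter_subset_left).trans ?_
    refine (Finset.card_le_card (un_mono (M := [V]) fun a ha => List.mem_of_mem_drop ha)).trans ?_
    rw [un_singleton]
    exact hV.trans (Nat.le_mul_of_pos_right _ (by omega))
  · intro t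
    rcases Nat.eq_zero_or_pos t with rfl | ht
    · refine hin _ _ _ ?_ (hp1 _)
      rw [List.drop_zero, un_singleton]
    · refine hout _ _ _ ?_ (hp _)
      rw [List.take_of_length_le (by rw [List.length_singleton]; omega), un_singleton]
  · intro s t hst
    rcases Nat.eq_zero_or_pos s with rfl | hs
    · rcases Nat.eq_zero_or_pos t with rfl | ht
      · refine hout _ _ _ ?_ (hp _)
        rw [List.drop_zero, un_singleton]
        exact Finset.subset_union_right
      · refine hin _ _ _ ?_ (hp1 _)
        rw [List.drop_zero, List.take_of_length_le (by rw [List.length_singleton]; omega), un_singleton]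
    · refine hout _ _ _ ?_ (hp _)
      rw [List.take_of_length_le (l := [V]) (by rw [List.length_singleton]; omega), un_singleton]
      exact Finset.subset_union_left

theorem lay_gate {k δ m₁ m₂ : ℕ} {X V₁ V₂ : Finset (Fin n)} {Λ₁ Λ₂ : List (Finset (Fin n))}
    {F₁ F₂ : Option (Fin w) → MvPolynomial (Fin n) K} (hV₁ : un Λ₁ = V₁) (hV₂ : un Λ₂ = V₂)
    (h₁ : Lay w k δ (X ∪ V₂) m₁ Λ₁ F₁) (h₂ : Lay w k δ (X ∪ V₁) m₂ Λ₂ F₂)
    (hb : (V₂ ∩ (X ∪ V₁)).card ≤ k) (hm1 : 1 ≤ m₁) (hm : m₁ ≤ m₂)
    (T : Option (Fin w) → Option (Fin w) → Option (Fin w) → K) :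
    Lay w k δ X (m₁ + m₂) (Λ₁ ++ Λ₂) fun c => ∑ i, ∑ j, C (T c i j) * (F₁ i * F₂ j) := by
  classical
  have hcard : Fintype.card (Option (Fin w)) = w + 1 := by simp
  have hl₁ := h₁.len
  have hlog1 : Nat.log 2 m₁ + 1 ≤ Nat.log 2 (m₁ + m₂) := by
    have h3 : m₁ ≠ 0 := by omega
    have h4 : Nat.log 2 (m₁ * 2) ≤ Nat.log 2 (m₁ + m₂) := Nat.log_mono_right (by omega)
    rwa [Nat.log_mul_base (by norm_num) h3] at h4
  have hlog2 : Nat.log 2 m₂ ≤ Nat.log 2 (m₁ + m₂) := Nat.log_mono_right (by omega)
  have hdeg : m₁ * δ + m₂ * δ = (m₁ + m₂) * δ := by ring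
  have hun : un (Λ₁ ++ Λ₂) = V₁ ∪ V₂ := by rw [un_append, hV₁, hV₂]
  -- the cases of a cut
  have hdrop1 : ∀ t, t ≤ m₁ → (Λ₁ ++ Λ₂).drop t = Λ₁.drop t ++ Λ₂ := fun t ht =>
    List.drop_append_of_le_length (by rw [hl₁]; exact ht)
  have htake1 : ∀ t, t ≤ m₁ → (Λ₁ ++ Λ₂).take t = Λ₁.take t := fun t ht =>
    List.take_append_of_le_length (by rw [hl₁]; exact ht)
  have hdrop2 : ∀ t, (Λ₁ ++ Λ₂).drop (m₁ + t) = Λ₂.drop t := fun t => by
    rw [← hl₁, List.drop_append, List.drop_eq_nil_of_le (by omega), List.nil_append]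
    congr 1
    omega
  have htake2 : ∀ t, (Λ₁ ++ Λ₂).take (m₁ + t) = Λ₁ ++ Λ₂.take t := fun t => by
    rw [← hl₁, List.take_append, List.take_of_length_le (by omega)]
    congr 2
    omega
  have hmem₁ : ∀ c, F₁ c ∈ supported K (V₁ : Set (Fin n)) := fun c => hV₁ ▸ h₁.mem c
  have hmem₂ : ∀ c, F₂ c ∈ supported K (V₂ : Set (Fin n)) := fun c => hV₂ ▸ h₂.mem c
  refine ⟨by rw [List.length_append, h₁.len, h₂.len], ?_, ?_, ?_, ?_, ?_, ?_⟩
  · intro a ha
    rcases List.mem_append.1 ha with ha | ha
    · exact h₁.card a ha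
    · exact h₂.card a ha
  · intro c
    refine Subalgebra.sum_mem _ fun i _ => Subalgebra.sum_mem _ fun j _ => ?_
    refine Subalgebra.mul_mem _ (Subalgebra.algebraMap_mem _ _) (Subalgebra.mul_mem _ ?_ ?_)
    · refine supported_mono ?_ (hmem₁ i)
      rw [hun, Finset.coe_subset]
      exact Finset.subset_union_left
    · refine supported_mono ?_ (hmem₂ j)
      rw [hun, Finset.coe_subset]
      exact Finset.subset_union_right
  · intro c
    refine totalDegree_finsetSum_le fun i _ => totalDegree_finsetSum_le fun j _ => ?_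
    refine (totalDegree_mul _ _).trans ?_
    rw [totalDegree_C, zero_add, ← hdeg]
    exact (totalDegree_mul _ _).trans (Nat.add_le_add (h₁.deg i) (h₂.deg j))
  · intro t
    rcases le_or_gt t m₁ with ht | ht
    · rw [hdrop1 t ht, htake1 t ht, un_append, hV₂]
      have hsub : (un (Λ₁.drop t) ∪ V₂) ∩ (un (Λ₁.take t) ∪ X) ⊆
          (un (Λ₁.drop t) ∩ (un (Λ₁.take t) ∪ (X ∪ V₂))) ∪ (V₂ ∩ (X ∪ V₁)) := by
        intro x hx
        have htk : x ∈ un (Λ₁.take t) → x ∈ V₁ := fun h => by
          rw [← hV₁]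
          exact un_mono (fun a ha => List.mem_of_mem_take ha) h
        simp only [Finset.mem_inter, Finset.mem_union] at hx ⊢
        tauto
      refine (Finset.card_le_card hsub).trans ((Finset.card_union_le _ _).trans ?_)
      calc _ ≤ k * (Nat.log 2 m₁ + 1) + k := Nat.add_le_add (h₁.cross t) hb
        _ = k * (Nat.log 2 m₁ + 1 + 1) := by ring
        _ ≤ _ := Nat.mul_le_mul_left _ (by omega)
    · obtain ⟨u, rfl⟩ := Nat.exists_eq_add_of_le ht.le
      rw [hdrop2, htake2, un_append, hV₁]
      have hsub : un (Λ₂.drop u) ∩ (V₁ ∪ un (Λ₂.take u) ∪ X) ⊆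
          un (Λ₂.drop u) ∩ (un (Λ₂.take u) ∪ (X ∪ V₁)) := by
        intro x hx
        simp only [Finset.mem_inter, Finset.mem_union] at hx ⊢
        tauto
      exact (Finset.card_le_card hsub).trans ((h₂.cross u).trans
        (Nat.mul_le_mul_left _ (by omega)))
  · intro t
    rcases le_or_gt t m₁ with ht | ht
    · rw [hdrop1 t ht, htake1 t ht, un_append, hV₂]
      have g1 := (h₁.one t).mono (A' := (un (Λ₁.take t) : Set (Fin n)))
        (B' := ((un (Λ₁.drop t) ∪ V₂ : Finset (Fin n)) : Set (Fin n))) subset_rfl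
        (Finset.coe_subset.2 Finset.subset_union_left) le_rfl le_rfl
      have g2 := (SpV.inner (un (Λ₁.take t) : Set (Fin n)) hmem₂ h₂.deg).mono
        (A' := (un (Λ₁.take t) : Set (Fin n)))
        (B' := ((un (Λ₁.drop t) ∪ V₂ : Finset (Fin n)) : Set (Fin n))) subset_rfl
        (Finset.coe_subset.2 Finset.subset_union_right) le_rfl le_rfl
      refine (g1.bilin g2 T).mono subset_rfl subset_rfl ?_ hdeg.le
      rw [hcard, ← pow_succ]
      exact pow_le_pow' (by omega)
    · obtain ⟨u, rfl⟩ := Nat.exists_eq_add_of_le ht.le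
      rw [hdrop2, htake2, un_append, hV₁]
      have g1 := (SpV.outer (un (Λ₂.drop u) : Set (Fin n)) hmem₁ h₁.deg).mono
        (A' := ((V₁ ∪ un (Λ₂.take u) : Finset (Fin n)) : Set (Fin n)))
        (B' := (un (Λ₂.drop u) : Set (Fin n)))
        (Finset.coe_subset.2 Finset.subset_union_left) subset_rfl le_rfl le_rfl
      have g2 := (h₂.one u).mono
        (A' := ((V₁ ∪ un (Λ₂.take u) : Finset (Fin n)) : Set (Fin n)))
        (B' := (un (Λ₂.drop u) : Set (Fin n)))
        (Finset.coe_subset.2 Finset.subset_union_right) subset_rfl le_rfl le_rfl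
      refine (g1.bilin g2 T).mono subset_rfl subset_rfl ?_ hdeg.le
      rw [one_mul]
      exact pow_le_pow' (by omega)
  · intro s t hst
    rcases le_or_gt t m₁ with ht | ht
    · rw [hdrop1 t ht, htake1 t ht, htake1 s (hst.trans ht), un_append, hV₂]
      set O : Finset (Fin n) := un (Λ₁.take s) ∪ (un (Λ₁.drop t) ∪ V₂) with hO
      have g1 := (h₁.two s t hst).mono (A' := (O : Set (Fin n)))
        (B' := (un ((Λ₁.take t).drop s) : Set (Fin n))) (Finset.coe_subset.2 (by
          intro x hx
          rw [hO]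
          simp only [Finset.mem_union] at hx ⊢
          tauto)) subset_rfl le_rfl le_rfl
      have g2 := (SpV.outer (un ((Λ₁.take t).drop s) : Set (Fin n)) hmem₂ h₂.deg).mono
        (A' := (O : Set (Fin n))) (B' := (un ((Λ₁.take t).drop s) : Set (Fin n)))
        (Finset.coe_subset.2 (by
          intro x hx
          rw [hO]
          simp only [Finset.mem_union]
          tauto)) subset_rfl le_rfl le_rfl
      refine (g1.bilin g2 T).mono subset_rfl subset_rfl ?_ hdeg.le
      rw [mul_one]
      exact pow_le_pow' (by omega)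
    · obtain ⟨u, rfl⟩ := Nat.exists_eq_add_of_le ht.le
      rcases le_or_gt m₁ s with hs | hs
      · obtain ⟨v, rfl⟩ := Nat.exists_eq_add_of_le hs
        have hvu : v ≤ u := by omega
        have e1 : ((Λ₁ ++ Λ₂).take (m₁ + u)).drop (m₁ + v) = (Λ₂.take u).drop v := by
          rw [htake2, ← hl₁, List.drop_append, List.drop_eq_nil_of_le (by omega), List.nil_append]
          congr 1
          omega
        rw [hdrop2, htake2, e1, un_append, hV₁]
        set O : Finset (Fin n) := V₁ ∪ un (Λ₂.take v) ∪ un (Λ₂.drop u) with hO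
        have g1 := (SpV.outer (un ((Λ₂.take u).drop v) : Set (Fin n)) hmem₁ h₁.deg).mono
          (A' := (O : Set (Fin n))) (B' := (un ((Λ₂.take u).drop v) : Set (Fin n)))
          (Finset.coe_subset.2 (by
            intro x hx
            rw [hO]
            simp only [Finset.mem_union]
            tauto)) subset_rfl le_rfl le_rfl
        have g2 := (h₂.two v u hvu).mono (A' := (O : Set (Fin n)))
          (B' := (un ((Λ₂.take u).drop v) : Set (Fin n))) (Finset.coe_subset.2 (by
            intro x hx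
            rw [hO]
            simp only [Finset.mem_union] at hx ⊢
            tauto)) subset_rfl le_rfl le_rfl
        refine (g1.bilin g2 T).mono subset_rfl subset_rfl ?_ hdeg.le
        rw [one_mul]
        exact pow_le_pow' (by omega)
      · have e1 : ((Λ₁ ++ Λ₂).take (m₁ + u)).drop s = Λ₁.drop s ++ Λ₂.take u := by
          rw [htake2, List.drop_append_of_le_length (by omega)]
        rw [hdrop2, htake1 s hs.le, e1, un_append]
        set O : Finset (Fin n) := un (Λ₁.take s) ∪ un (Λ₂.drop u) with hO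
        set I : Finset (Fin n) := un (Λ₁.drop s) ∪ un (Λ₂.take u) with hI
        have g1 := (h₁.one s).mono (A' := (O : Set (Fin n))) (B' := (I : Set (Fin n)))
          (Finset.coe_subset.2 Finset.subset_union_left)
          (Finset.coe_subset.2 Finset.subset_union_left) le_rfl le_rfl
        have g2 := (h₂.one u).swap.mono (A' := (O : Set (Fin n))) (B' := (I : Set (Fin n)))
          (Finset.coe_subset.2 Finset.subset_union_right)
          (Finset.coe_subset.2 Finset.subset_union_right) le_rfl le_rfl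
        refine (g1.bilin g2 T).mono subset_rfl subset_rfl ?_ hdeg.le
        rw [hcard, ← pow_succ', ← pow_add]
        exact pow_le_pow' (by omega)

theorem Net.Thin.card_inter {k : ℕ} {X : Finset (Fin n)} {E : Net n w K} (h : E.Thin k X) :
    (E.vars ∩ X).card ≤ k := by
  cases E with
  | leaf v => exact (Finset.card_le_card Finset.inter_subset_left).trans h
  | gate T a b => exact h.1

theorem Net.size_pos (E : Net n w K) : 1 ≤ E.size := by
  induction E with
  | leaf v => exact le_rfl
  | gate T a b iha ihb =>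
    unfold Net.size
    omega

theorem exists_lay {k δ : ℕ} (E : Net n w K) : ∀ X : Finset (Fin n), E.Thin k X → E.Deg δ →
    ∃ Λ : List (Finset (Fin n)), un Λ = E.vars ∧ Lay w k δ X E.size Λ (one' E.val) := by
  classical
  induction E with
  | leaf v =>
    intro X hX hδ
    refine ⟨[(Net.leaf v).vars], un_singleton _, lay_leaf hX ?_ ?_⟩
    · intro c
      rcases c with _ | c
      · exact Subalgebra.one_mem _
      · change v c ∈ _
        rw [mem_supported]
        intro x hx
        rw [Finset.mem_coe]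
        unfold Net.vars
        rw [Finset.mem_biUnion]
        exact ⟨c, Finset.mem_univ _, hx⟩
    · intro c
      rcases c with _ | c
      · change (1 : MvPolynomial (Fin n) K).totalDegree ≤ δ
        simp
      · exact hδ c
  | gate T a b iha ihb =>
    intro X hX hδ
    obtain ⟨h0, ha, hb⟩ := hX
    obtain ⟨Λa, hVa, hLa⟩ := iha _ ha hδ.1
    obtain ⟨Λb, hVb, hLb⟩ := ihb _ hb hδ.2
    have hca := ha.card_inter
    have hcb := hb.card_inter
    set T' : Option (Fin w) → Option (Fin w) → Option (Fin w) → K := fun c i j =>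
      match c with
      | none => if i = none ∧ j = none then 1 else 0
      | some c => T c i j with hT'
    have hval : one' (Net.gate T a b).val = fun c => ∑ i, ∑ j, C (T' c i j) *
        (one' a.val i * one' b.val j) := by
      funext c
      rcases c with _ | c
      · change (1 : MvPolynomial (Fin n) K) = _
        rw [Finset.sum_eq_single none, Finset.sum_eq_single none]
        · simp [hT', one']
        · intro j _ hj
          simp [hT', hj]
        · simp
        · intro i _ hi
          refine Finset.sum_eq_zero fun j _ => ?_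
          simp [hT', hi]
        · simp
      · rfl
    have hval2 : one' (Net.gate T a b).val = fun c => ∑ j, ∑ i, C (T' c i j) *
        (one' b.val j * one' a.val i) := by
      rw [hval]
      funext c
      rw [Finset.sum_comm]
      refine Finset.sum_congr rfl fun j _ => Finset.sum_congr rfl fun i _ => ?_
      rw [mul_comm (one' a.val i)]
    rcases le_total a.size b.size with hab | hab
    · refine ⟨Λa ++ Λb, by rw [un_append, hVa, hVb]; rfl, ?_⟩
      rw [hval]
      exact lay_gate hVa hVb hLa hLb hcb a.size_pos hab T'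
    · refine ⟨Λb ++ Λa, ?_, ?_⟩
      · rw [un_append, hVa, hVb, Finset.union_comm]
        rfl
      · rw [hval2]
        have hs : (Net.gate T a b).size = b.size + a.size := Nat.add_comm _ _
        rw [hs]
        exact lay_gate hVb hVa hLb hLa hca b.size_pos hab fun c j i => T' c i j

/-- **The values of thin networks have small rank with respect to all intervals of an order.** -/
theorem Net.ordRk {k δ : ℕ} {E : Net n w K} (hE : E.Thin k ∅) (hδ : E.Deg δ) (c : Fin w) :
    OrdRk ((w + 1) ^ (2 * Nat.log 2 E.size + 3) *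
      (E.size * δ + 1) ^ (2 * (k * (Nat.log 2 E.size + 1)) + 2 * k)) (E.val c) ∧
      (E.val c).totalDegree ≤ E.size * δ := by
  classical
  obtain ⟨Λ, hΛ, hL⟩ := exists_lay E ∅ hE hδ
  refine ⟨?_, hL.deg (some c)⟩
  refine ordRk_of_chain (V := fun t => un (Λ.drop t)) (len := Λ.length)
    (Nat.one_le_pow _ _ (Nat.succ_pos w)) ?_ ?_ ?_ ?_
  · intro t
    refine un_mono fun a ha => ?_
    rw [← List.drop_drop] at ha
    exact List.mem_of_mem_drop ha
  · intro t
    rcases lt_or_ge t Λ.length with ht | ht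
    · refine (Finset.card_le_card ?_).trans (hL.card _ (List.getElem_mem ht))
      intro x hx
      rw [Finset.mem_sdiff, mem_un, mem_un] at hx
      obtain ⟨⟨a, ha, hxa⟩, h2⟩ := hx
      rw [List.drop_eq_getElem_cons ht, List.mem_cons] at ha
      rcases ha with rfl | ha
      · exact hxa
      · exact absurd ⟨a, ha, hxa⟩ h2
    · refine le_trans (le_of_eq ?_) (Nat.zero_le _)
      rw [List.drop_eq_nil_of_le ht, un_nil, Finset.empty_sdiff, Finset.card_empty]
  · rw [List.drop_eq_nil_of_le le_rfl, un_nil]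
  · intro s t hst
    refine ⟨un ((Λ.take t).drop s), un (Λ.take s) ∪ un (Λ.drop t), ?_, ?_, ?_, ?_⟩
    · obtain ⟨M, hM, hM2, hM3⟩ := hL.two s t hst
      refine ⟨M.map fun p => (p.2, p.1 (some c)), by simpa using hM, ?_, ?_⟩
      · intro p hp
        rw [List.mem_map] at hp
        obtain ⟨q, hq, rfl⟩ := hp
        obtain ⟨h1, h2, h3⟩ := hM2 q hq
        exact ⟨⟨h2, h3⟩, (h1 (some c)).1, (h1 (some c)).2⟩
      · have := hM3 (some c)
        change E.val c = _ at this
        rw [this, List.map_map]
        congr 1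
        refine List.map_congr_left fun p _ => ?_
        simp only [Function.comp_apply]
        ring
    · refine un_mono fun a ha => ?_
      rw [List.drop_take] at ha
      exact List.mem_of_mem_take ha
    · rw [List.drop_zero]
      exact Finset.union_subset (un_mono fun a ha => List.mem_of_mem_take ha)
        (un_mono fun a ha => List.mem_of_mem_drop ha)
    · have hsub : (un ((Λ.take t).drop s) ∩ un (Λ.drop t)) ∪
          ((un (Λ.take s) ∪ un (Λ.drop t)) ∩ (un (Λ.drop s) \ un (Λ.drop t))) ⊆
          (un (Λ.drop t) ∩ (un (Λ.take t) ∪ ∅)) ∪ (un (Λ.drop s) ∩ (un (Λ.take s) ∪ ∅)) := by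
        intro x hx
        have h1 : x ∈ un ((Λ.take t).drop s) → x ∈ un (Λ.take t) :=
          fun h => un_mono (fun a ha => List.mem_of_mem_drop ha) h
        simp only [Finset.mem_inter, Finset.mem_union, Finset.mem_sdiff] at hx ⊢
        tauto
      refine (Finset.card_le_card hsub).trans ((Finset.card_union_le _ _).trans ?_)
      have h1 := hL.cross t
      have h2 := hL.cross s
      omega

end Pool.Agent.TH483
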